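import Pool.Agent.J4.H6.NM.Main
import Pool.Agent.W609.T.Five
import Pool.Agent.R735.SX.Core

set_option autoImplicit false

/-!
# Exceptions to the non-speciality statement are controlled by their ninth multiplicity
-/

namespace Pool.Agent.J4.H6.NM

open Finset Pool.Agent.TH641.UM Pool.Agent.TH2.NU Pool.Agent.J4.H25.Gl Pool.Agent.H932R3

/-- non-speciality from `Sgn` -/
theorem ns_of_sgn {n d : ℕ} {v : Fin n → ℕ} (h : Sgn (ms v) d) : R735.SX.NonSpecial d v := by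
  obtain ⟨F, hF, hF'⟩ := open_of_sgn h
  refine ⟨F.map (algebraMap ℚ ℂ), map_ne_zero_of hF, fun P hP => ?_⟩
  rw [MvPolynomial.eval_map] at hP
  exact hF' (L := ℂ) P hP

/-- The sum of the multiplicities from the ninth one on which are larger than `m`. -/
def tail (m s : ℕ) (w : ℕ → ℕ) : ℕ := ∑ i ∈ Ico 8 s, if m < w i then w i else 0


theorem ms_range (w : ℕ → ℕ) (n : ℕ) :
    ms (fun i : Fin n => w i) = ∑ i ∈ range n, ({w i} : Multiset ℕ) := by
  unfold ms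
  rw [Fin.sum_univ_eq_sum_range (fun i => ({w i} : Multiset ℕ)) n]

theorem condM_zeros (s n : ℕ) (w : ℕ → ℕ) (hw : ∀ i, s ≤ i → w i = 0) :
    TH2.NU.condM (∑ i ∈ Ico s n, ({w i} : Multiset ℕ)) = 0 := by
  refine condM_sum_zero _ _ fun i hi => ?_
  rw [hw i (mem_Ico.1 hi).1, condM_single]
  rfl

theorem sgn_pad {d s n : ℕ} (hsn : s ≤ n) (w : ℕ → ℕ) (hw : ∀ i, s ≤ i → w i = 0) :
    Sgn (ms (fun i : Fin n => w i)) d ↔ Sgn (ms (fun i : Fin s => w i)) d := by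
  rw [ms_range, ms_range, ← Finset.sum_range_add_sum_Ico _ hsn, add_comm]
  exact Sgn_zeros (condM_zeros s n w hw)

/-- **The ninth multiplicity.** -/
theorem ns_main {m s d : ℕ} {w : ℕ → ℕ} (hm : 0 < m) (hw : Antitone w) (hs : ∀ i, s ≤ i → w i = 0)
    (hd : w 0 + w 1 + w 2 ≤ d) (h : 50 * (2 * m ^ 2 + 3 * m + 3 + tail m s w) ≤ w 2) :
    R735.SX.NonSpecial d (fun i : Fin s => w i) := by
  refine ns_of_sgn ?_
  rw [← sgn_pad (show s ≤ s + 8 by omega) w hs, ms_range, ← Finset.sum_range_add_sum_Ico _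
    (show 8 ≤ s + 8 by omega)]
  have e1 : ∑ i ∈ range 8, ({w i} : Multiset ℕ) =
      {w 0} + {w 1} + {w 2} + {w 3} + {w 4} + {w 5} + {w 6} + {w 7} := by
    simp only [Finset.sum_range_succ, Finset.sum_range_zero, zero_add]
  have e2 : ∑ i ∈ Ico 8 (s + 8), ({w i} : Multiset ℕ) =
      (∑ i ∈ (Ico 8 (s + 8)).filter fun i => m < w i, ({w i} : Multiset ℕ)) +
        ∑ i ∈ (Ico 8 (s + 8)).filter fun i => ¬ m < w i, ({w i} : Multiset ℕ) :=
    (Finset.sum_filter_add_sum_filter_not _ _ _).symm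
  rw [e1, e2, ← add_assoc]
  have hmain := main8 (m := m) (t := tail m s w) (d := d) hm (hw (show 0 ≤ 1 by omega))
    (hw (show 1 ≤ 2 by omega)) (hw (show 2 ≤ 3 by omega)) (hw (show 3 ≤ 4 by omega))
    (hw (show 4 ≤ 5 by omega)) (hw (show 5 ≤ 6 by omega)) (hw (show 6 ≤ 7 by omega)) hd (by
      refine le_trans (le_of_eq ?_) h
      unfold W611.ff
      ring)
  refine hmain _ _ ?_ ?_
  · have e3 : (∑ i ∈ (Ico 8 (s + 8)).filter fun i => m < w i, ({w i} : Multiset ℕ)).sum =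
        ∑ i ∈ (Ico 8 (s + 8)).filter fun i => m < w i, w i := by
      rw [← Multiset.coe_sumAddMonoidHom, map_sum]
      refine Finset.sum_congr rfl fun i _ => ?_
      simp
    rw [e3, Finset.sum_filter]
    unfold tail
    rcases Nat.lt_or_ge s 8 with h8 | h8
    · refine le_of_eq_of_le (Finset.sum_eq_zero fun i hi => ?_) (Nat.zero_le _)
      rw [hs i (by have := (mem_Ico.1 hi).1; omega)]
      simp
    · rw [← Finset.sum_Ico_consecutive _ h8 (show s ≤ s + 8 by omega)]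
      refine le_of_eq ?_
      rw [Nat.add_eq_left]
      refine Finset.sum_eq_zero fun i hi => ?_
      rw [hs i (mem_Ico.1 hi).1]
      simp
  · intro z hz
    rw [Multiset.mem_sum] at hz
    obtain ⟨i, hi, hz⟩ := hz
    rw [Multiset.mem_singleton] at hz
    have := (mem_filter.1 hi).2
    omega

/-- three arbitrary multiplicities -/
theorem ns_three {s d : ℕ} {w : ℕ → ℕ} (hs4 : 4 ≤ s) (hw : Antitone w) (h0 : 0 < w 3)
    (hd : w 0 + w 1 + w 2 ≤ d)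
    (h : 131072 * (w 3 + 1) ^ 4 + (w 0 * (w 0 + 1) + w 1 * (w 1 + 1) + w 2 * (w 2 + 1)) ≤
        (d + 1) * (d + 2) ∨
      131072 * (w 3 + 1) ^ 4 ≤ ∑ i ∈ Ico 3 s, (w i + 1).choose 2) :
    R735.SX.NonSpecial d (fun i : Fin s => w i) := by
  obtain ⟨r, rfl⟩ : ∃ r, s = r + 4 := ⟨s - 4, by omega⟩
  have n0 : ((0 : Fin (r + 4)) : ℕ) = 0 := rfl
  have n1 : ((1 : Fin (r + 4)) : ℕ) = 1 := Nat.mod_eq_of_lt (show 1 < r + 4 by omega)
  have n2 : ((2 : Fin (r + 4)) : ℕ) = 2 := Nat.mod_eq_of_lt (show 2 < r + 4 by omega)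
  have n3 : ((3 : Fin (r + 4)) : ℕ) = 3 := Nat.mod_eq_of_lt (show 3 < r + 4 by omega)
  obtain ⟨F, hF, hF'⟩ := W609.T.big3' ℂ (v := fun i : Fin (r + 4) => w i)
    (fun i j hij => hw hij) (by simp only [n3]; exact h0)
  refine ⟨F.map (algebraMap ℚ ℂ), map_ne_zero_of hF, fun P hP => ?_⟩
  rw [MvPolynomial.eval_map] at hP
  refine hF' P hP d (by simp only [n0, n1, n2]; exact hd) ?_
  simp only [n0, n1, n2, n3]
  have e : ∑ i : Fin (r + 4), (if 3 ≤ (i : ℕ) then (w i + 1).choose 2 else 0) =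
      ∑ i ∈ Finset.Ico 3 (r + 4), (w i + 1).choose 2 := by
    rw [Fin.sum_univ_eq_sum_range (fun i => if 3 ≤ i then (w i + 1).choose 2 else 0) (r + 4),
      ← Finset.sum_filter]
    apply Finset.sum_congr _ fun _ _ => rfl
    ext i
    rw [Finset.mem_filter, Finset.mem_range, Finset.mem_Ico]
    tauto
  rw [e]
  exact h

/-- at most three points -/
theorem ns_few {s d : ℕ} {w : ℕ → ℕ} (hs : s ≤ 3) (hw : Antitone w) (h0 : ∀ i, s ≤ i → w i = 0)
    (hd : w 0 + w 1 + w 2 ≤ d) : R735.SX.NonSpecial d (fun i : Fin s => w i) := by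
  refine ns_of_sgn ?_
  rw [← sgn_pad (show s ≤ 0 + 4 by omega) w h0]
  refine sgn_of_exp ?_
  obtain ⟨F, hF, hF'⟩ := W609.T.big_three ℂ (r := 0) (v := fun i : Fin (0 + 4) => w i)
    (fun i j hij => hw hij) (h0 3 hs)
  exact ⟨F, hF, fun P hP => hF' P hP d hd⟩

/-- the bound for the third multiplicity -/
def K (μ : ℕ) : ℕ := 50 * (2 * μ ^ 2 + 3 * μ + 3)

/-- the bound for the degree -/
def C (μ : ℕ) : ℕ := 131072 * K μ ^ 4

theorem K_le {μ : ℕ} (h : 1 ≤ μ) : K μ ≤ 400 * μ ^ 2 := by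
  unfold K
  nlinarith

theorem C_le {μ : ℕ} (h : 1 ≤ μ) : C μ ≤ 3400000000000000 * μ ^ 8 := by
  unfold C
  calc 131072 * K μ ^ 4 ≤ 131072 * (400 * μ ^ 2) ^ 4 :=
        Nat.mul_le_mul_left _ (Nat.pow_le_pow_left (K_le h) 4)
    _ = 3355443200000000 * μ ^ 8 := by ring
    _ ≤ _ := Nat.mul_le_mul_right _ (by norm_num)

theorem K_big (μ : ℕ) : 150 ≤ K μ := by
  unfold K
  omega

theorem C_big (μ : ℕ) : 131072 * 150 ^ 4 ≤ C μ := by
  unfold C
  exact Nat.mul_le_mul_left _ (Nat.pow_le_pow_left (K_big μ) 4)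

variable {s d : ℕ} {w : ℕ → ℕ}

theorem exc_third (h : R735.SX.Exception s d w) {m : ℕ} (hm : 1 ≤ m) :
    w 2 < 50 * (2 * m ^ 2 + 3 * m + 3 + tail m s w) := by
  obtain ⟨hs, hanti, hpos, hzero, hd, hns⟩ := h
  by_contra hcon
  push Not at hcon
  exact hns (ns_main hm hanti hzero hd hcon)

theorem tail_zero {μ : ℕ} (hw : Antitone w) (h8 : w 8 ≤ μ) : tail μ s w = 0 := by
  unfold tail
  refine Finset.sum_eq_zero fun i hi => ?_
  rw [if_neg]
  have := hw (mem_Ico.1 hi).1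
  omega

theorem exc_bounds (h : R735.SX.Exception s d w) {μ : ℕ} (hμ : 1 ≤ μ) (hw : w 8 ≤ μ) :
    w 2 < K μ ∧
    (d + 1) * (d + 2) < C μ + (w 0 * (w 0 + 1) + w 1 * (w 1 + 1) + w 2 * (w 2 + 1)) ∧
    ∑ i ∈ Ico 3 s, (w i + 1).choose 2 < C μ := by
  have h2 : w 2 < K μ := by
    have := exc_third h hμ
    rw [tail_zero h.2.1 hw, add_zero] at this
    exact this
  obtain ⟨hs, hanti, hpos, hzero, hd, hns⟩ := h
  have h3 : 131072 * (w 3 + 1) ^ 4 ≤ C μ := by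
    unfold C
    have := hanti (show 2 ≤ 3 by omega)
    exact Nat.mul_le_mul_left _ (Nat.pow_le_pow_left (by omega) 4)
  refine ⟨h2, ?_, ?_⟩
  · by_contra hcon
    push Not at hcon
    exact hns (ns_three hs hanti (hpos 3 (by omega)) hd (Or.inl (by omega)))
  · by_contra hcon
    push Not at hcon
    exact hns (ns_three hs hanti (hpos 3 (by omega)) hd (Or.inr (by omega)))

theorem exc_bounds2 (h : R735.SX.Exception s d w) {μ : ℕ} (hμ : 1 ≤ μ) (hw : w 8 ≤ μ) :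
    2 * (w 0 * w 1 + w 0 * w 2 + w 1 * w 2) + 2 * (w 0 + w 1 + w 2) + 2 < C μ ∧
    d < C μ ∧ s < C μ + 3 := by
  obtain ⟨b1, b2, b3⟩ := exc_bounds h hμ hw
  obtain ⟨hs, hanti, hpos, hzero, hd, hns⟩ := h
  have h1 : (w 0 + w 1 + w 2 + 1) * (w 0 + w 1 + w 2 + 2) ≤ (d + 1) * (d + 2) :=
    Nat.mul_le_mul (by omega) (by omega)
  have hA : 2 * (w 0 * w 1 + w 0 * w 2 + w 1 * w 2) + 2 * (w 0 + w 1 + w 2) + 2 < C μ := by
    nlinarith
  refine ⟨hA, ?_, ?_⟩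
  · by_contra hcon
    push Not at hcon
    have h2 := C_big μ
    have h3' : 2 * (w 0 + w 1 + w 2) < C μ := by omega
    have h4 : w 0 * (w 0 + 1) + w 1 * (w 1 + 1) + w 2 * (w 2 + 1) ≤
        (w 0 + w 1 + w 2) * (w 0 + w 1 + w 2 + 1) := by nlinarith
    have h6 : (C μ + 1) * (C μ + 2) ≤ (d + 1) * (d + 2) := Nat.mul_le_mul (by omega) (by omega)
    have h7 : (w 0 + w 1 + w 2) * (w 0 + w 1 + w 2 + 1) ≤ C μ * (C μ + 1) :=
      Nat.mul_le_mul (by omega) (by omega)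
    nlinarith
  · by_contra hcon
    push Not at hcon
    have h2 : (Finset.Ico 3 s).card ≤ ∑ i ∈ Finset.Ico 3 s, (w i + 1).choose 2 := by
      rw [Finset.card_eq_sum_ones]
      apply Finset.sum_le_sum
      intro i hi
      rw [Finset.mem_Ico] at hi
      have := hpos i hi.2
      exact Nat.choose_pos (by omega)
    rw [Nat.card_Ico] at h2
    omega

theorem exc_deg (h : R735.SX.Exception s d w) :
    d < 3400000000000000 * (max (w 8) 1) ^ 8 :=
  lt_of_lt_of_le (exc_bounds2 h (le_max_right _ _) (le_max_left _ _)).2.1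
    (C_le (le_max_right _ _))

/-- finitely many exceptions for a bounded ninth multiplicity -/
theorem exc_finite (μ : ℕ) :
    {x : ℕ × ℕ × (ℕ → ℕ) | x.2.2 8 ≤ μ ∧ R735.SX.Exception x.1 x.2.1 x.2.2}.Finite := by
  obtain ⟨N, hN⟩ : ∃ N, N = C (max μ 1) + 3 := ⟨_, rfl⟩
  have key : ∀ x : ℕ × ℕ × (ℕ → ℕ), x.2.2 8 ≤ μ → R735.SX.Exception x.1 x.2.1 x.2.2 →
      x.1 < N ∧ x.2.1 < N ∧ ∀ i, x.2.2 i < N := by
    rintro ⟨s, d, w⟩ hw h
    simp only at hw h ⊢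
    obtain ⟨b1, b2, b3⟩ := exc_bounds2 h (μ := max μ 1) (le_max_right _ _)
      (hw.trans (le_max_left _ _))
    refine ⟨by omega, by omega, fun i => ?_⟩
    have := h.2.1 (Nat.zero_le i)
    omega
  apply Set.Finite.of_finite_image
    (f := fun x : ℕ × ℕ × (ℕ → ℕ) => (x.1, x.2.1, fun i : Fin N => x.2.2 i))
  · have hfin : ((Set.Iio N) ×ˢ (Set.Iio N) ×ˢ
        (Set.univ.pi fun _ : Fin N => Set.Iio N)).Finite :=
      (Set.finite_Iio N).prod ((Set.finite_Iio N).prod (Set.Finite.pi fun _ => Set.finite_Iio N))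
    apply hfin.subset
    rintro _ ⟨x, ⟨hx1, hx2⟩, rfl⟩
    obtain ⟨k1, k2, k3⟩ := key x hx1 hx2
    exact ⟨k1, k2, fun i _ => k3 i⟩
  · rintro ⟨s, d, w⟩ ⟨hx1, hx2⟩ ⟨s', d', w'⟩ ⟨hy1, hy2⟩ hxy
    simp only [Prod.mk.injEq] at hxy
    obtain ⟨e1, e2, e3⟩ := hxy
    obtain ⟨k1, -, -⟩ := key _ hx1 hx2
    simp only at e1 e2 e3 k1 hx2 hy2
    subst e1
    subst e2
    have : w = w' := by
      funext i
      by_cases hi : i < N
      · exact congrFun e3 ⟨i, hi⟩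
      · rw [hx2.2.2.2.1 i (by omega), hy2.2.2.2.1 i (by omega)]
    rw [this]

end Pool.Agent.J4.H6.NM
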