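import Pool.Agent.J4.H6.NM.Stp
import Pool.Agent.W611.FinH

set_option autoImplicit false

/-!
# Classes which are non-special together with all small multiplicities

`Al m t d L`: the class of degree `d` with the multiplicities `L`, further multiplicities of sum at
most `t` and arbitrary further multiplicities of size at most `m` is non-special.
-/

namespace Pool.Agent.J4.H6.NM

open Finset Pool.Agent.TH176.Nag Pool.Agent.TH603.Sur Pool.Agent.TH641.UM Pool.Agent.TH2.NU
  Pool.Agent.J4.H25.Gl Pool.Agent.W609 Pool.Agent.W609.CR Pool.Agent.TH167.SH Pool.Agent.H932R3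

/-- fewer simple points -/
theorem sgn_unones {M : Multiset ℕ} {d p : ℕ} (hc : TH2.NU.condM M + p ≤ (d + 2).choose 2)
    (h : Sgn (M + p • {1}) d) : Sgn M d := by
  refine Sgn_of_or (Or.inr ?_)
  rcases Sgn_or h with h1 | h1
  · exact SurM_of_ones h1 hc
  · obtain ⟨q, hq⟩ : ∃ q, TH2.NU.condM M + (p + q) = (d + 2).choose 2 :=
      ⟨(d + 2).choose 2 - (TH2.NU.condM M + p), by omega⟩
    have e1 : (1 + 1).choose 2 = 1 := rfl
    have h2 : EmpM (M + p • {1} + q • {1}) (TZ d) := EmpM_ones h1 (by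
      rw [condM_add, condM_smul, condM_single, e1]
      omega)
    refine SurM_of_ones (p := p + q) (h2.mono (le_of_eq ?_)) hq.le
    rw [add_smul, add_assoc]

/-- further multiplicities of sum at most `t`, and small ones -/
def Al (m t d : ℕ) (L : Multiset ℕ) : Prop :=
  ∀ Y Z : Multiset ℕ, Y.sum ≤ t → (∀ z ∈ Z, z ≤ m) → Sgn (L + Y + Z) d

theorem ms_list (L : List ℕ) : ms (fun i : Fin L.length => L.get i) = (L : Multiset ℕ) := by
  unfold ms
  induction L with
  | nil => simp
  | cons a l ih =>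
    refine (Fin.sum_univ_succ (n := l.length) (fun i => ({(a :: l).get i} : Multiset ℕ))).trans ?_
    have e : ∀ i : Fin l.length, (a :: l).get i.succ = l.get i := fun i => rfl
    simp only [e, ih]
    rfl

theorem ms_append {a b : ℕ} (u : Fin a → ℕ) (v : Fin b → ℕ) :
    ms (Fin.append u v) = ms u + ms v := by
  unfold ms
  rw [Fin.sum_univ_add]
  simp only [Fin.append_left, Fin.append_right]

theorem ms_one (a : ℕ) : ms ![a] = {a} := by
  unfold ms
  simp

theorem ms_three (a b c : ℕ) : ms ![a, b, c] = {a} + {b} + {c} := by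
  unfold ms
  rw [Fin.sum_univ_three]
  rfl

theorem ms_two (a b : ℕ) : ms ![a, b] = {a} + {b} := by
  unfold ms
  rw [Fin.sum_univ_two]
  rfl

/-- the number of conditions of a point of multiplicity `a` -/
theorem two_ch (a : ℕ) : 2 * (a + 1).choose 2 = a * (a + 1) := by
  rcases Nat.eq_zero_or_pos a with rfl | ha
  · rfl
  · have h := Pool.Agent.H932R7.two_choose (a - 1)
    rw [show a - 1 + 2 = a + 1 by omega, show a - 1 + 1 = a by omega] at h
    linarith

/-- **Part one of `LargeThirdMultiplicity`.** -/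
theorem sgn_p1 {m d : ℕ} (hm : 0 < m) (L : List ℕ) (h0 : W611.ff m ≤ d)
    (h1 : ∀ a ∈ L, a + W611.ff m ≤ d) (h2 : L.Pairwise fun a b => a + b + W611.ff m ≤ d)
    (h3 : L.sum + 2 * W611.ff m + 2 * m + 1 ≤ 2 * d) (Z : Multiset ℕ) (hZ : ∀ z ∈ Z, z ≤ m) :
    Sgn ((L : Multiset ℕ) + Z) d := by
  obtain ⟨w, hw⟩ : ∃ w : Fin (L.length + Z.toList.length) → ℕ,
      w = Fin.append (fun i => L.get i) (fun i => Z.toList.get i) := ⟨_, rfl⟩
  have wl : ∀ i, w (Fin.castAdd _ i) = L.get i := fun i => by rw [hw, Fin.append_left]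
  have wr : ∀ i, w (Fin.natAdd _ i) = Z.toList.get i := fun i => by rw [hw, Fin.append_right]
  have hms : ms w = (L : Multiset ℕ) + Z := by
    rw [hw, ms_append, ms_list, ms_toList]
  have hsm : ∀ i, w (Fin.natAdd _ i) ≤ m := fun i => by
    rw [wr]
    exact hZ _ (Multiset.mem_toList.1 (List.get_mem _ _))
  have hlg : ∀ j, m < w j → ∃ i, j = Fin.castAdd _ i := by
    intro j
    refine Fin.addCases (fun i _ => ⟨i, rfl⟩) (fun i hi => ?_) j
    have := hsm i
    omega
  rw [← hms]
  refine sgn_of_exp ?_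
  have hC : W611.Cnd m d w := by
    refine ⟨h0, fun i hi => ?_, fun i j hij hi hj => ?_, Or.inr ?_⟩
    · obtain ⟨i, rfl⟩ := hlg i hi
      rw [wl]
      exact h1 _ (List.get_mem _ _)
    · obtain ⟨i, rfl⟩ := hlg i hi
      obtain ⟨j, rfl⟩ := hlg j hj
      rw [wl, wl]
      rw [List.pairwise_iff_get] at h2
      rcases lt_trichotomy i j with h | h | h
      · exact h2 i j h
      · exact absurd (by rw [h]) hij
      · have := h2 j i h
        omega
    · have h4 : W611.Slg m w ≤ L.sum := by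
        unfold W611.Slg
        rw [Fin.sum_univ_add]
        have e1 : ∀ i : Fin Z.toList.length, (if w (Fin.natAdd L.length i) ≤ m then 0
            else w (Fin.natAdd L.length i)) = 0 := fun i => if_pos (hsm i)
        rw [Finset.sum_congr rfl fun i _ => e1 i, Finset.sum_const_zero, add_zero]
        have e2 : L.sum = ∑ i : Fin L.length, L.get i := by
          rw [← List.sum_ofFn, List.ofFn_get]
        rw [e2]
        refine Finset.sum_le_sum fun i _ => ?_
        rw [wl]
        split_ifs <;> omega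
      omega
  obtain ⟨F, hF, hF'⟩ := W611.expH ℂ m hm w d hC
  exact ⟨F, hF, fun P hP => hF' P hP d (Or.inl le_rfl)⟩

theorem pair_sum (l : List ℕ) {s : ℕ} (h : l.sum ≤ s) : l.Pairwise fun a b => a + b ≤ s := by
  induction l with
  | nil => exact List.Pairwise.nil
  | cons a l ih =>
    rw [List.sum_cons] at h
    rw [List.pairwise_cons]
    refine ⟨fun b hb => ?_, ih (by omega)⟩
    have := List.single_le_sum (l := l) (fun x _ => Nat.zero_le x) b hb
    omega

/-- **Part one of `LargeThirdMultiplicity`**, with further multiplicities of sum at most `t`. -/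
theorem al_p1 {m t d : ℕ} (hm : 0 < m) (L : List ℕ) (h0 : t + W611.ff m ≤ d)
    (h1 : ∀ a ∈ L, a + t + W611.ff m ≤ d) (h2 : L.Pairwise fun a b => a + b + W611.ff m ≤ d)
    (h3 : L.sum + t + 2 * W611.ff m + 2 * m + 1 ≤ 2 * d) : Al m t d (L : Multiset ℕ) := by
  intro Y Z hY hZ
  have hYs : Y.toList.sum ≤ t := by rw [Multiset.sum_toList]; exact hY
  have hYt : ∀ a ∈ Y.toList, a ≤ t := fun a ha =>
    (List.single_le_sum (l := Y.toList) (fun x _ => Nat.zero_le x) a ha).trans hYs
  have h4 := sgn_p1 (m := m) (d := d) hm (L ++ Y.toList) (by omega) (fun a ha => ?_) ?_ ?_ Z hZ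
  · rw [← Multiset.coe_add, Multiset.coe_toList] at h4
    exact h4
  · rcases List.mem_append.1 ha with ha | ha
    · have := h1 a ha
      omega
    · have := hYt a ha
      omega
  · rw [List.pairwise_append]
    refine ⟨h2, (pair_sum Y.toList hYs).imp fun {a b} h => by omega, fun a ha b hb => ?_⟩
    have := h1 a ha
    have := hYt b hb
    omega
  · rw [List.sum_append]
    omega

/-- a sub-multiset with almost a prescribed number of conditions -/
theorem exists_sub {m B : ℕ} (Z : Multiset ℕ) (hZ : ∀ z ∈ Z, z ≤ m)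
    (h : B ≤ TH2.NU.condM Z + (m + 1).choose 2) :
    ∃ Y W : Multiset ℕ, Z = Y + W ∧ TH2.NU.condM Y ≤ B ∧
      B ≤ TH2.NU.condM Y + (m + 1).choose 2 := by
  induction Z using Multiset.induction with
  | empty => exact ⟨0, 0, rfl, by simp [TH2.NU.condM], h⟩
  | cons a Z ih =>
    rcases Nat.lt_or_ge B (TH2.NU.condM (a ::ₘ Z)) with h1 | h1
    · have ha : (a + 1).choose 2 ≤ (m + 1).choose 2 :=
        Nat.choose_le_choose 2 (by have := hZ a (Multiset.mem_cons_self a Z); omega)
      rw [condM_cons] at h1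
      obtain ⟨Y, W, e, h2, h3⟩ := ih (fun z hz => hZ z (Multiset.mem_cons_of_mem hz)) (by omega)
      refine ⟨Y, a ::ₘ W, ?_, h2, h3⟩
      rw [e, Multiset.add_cons]
    · exact ⟨a ::ₘ Z, 0, (add_zero _).symm, h1, h⟩

theorem condM_one (p : ℕ) : TH2.NU.condM (p • {1}) = p := by
  rw [condM_smul, condM_single]
  have e1 : (1 + 1).choose 2 = 1 := rfl
  rw [e1, mul_one]

/-- **Gluing.** The multiplicities `A` and small ones form a group of size `c`. -/
theorem al_glue {m t d c : ℕ} (hm : 1 ≤ m) (hc : 2 ≤ c) (h1 : (m + 1).choose 2 ≤ c)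
    {A R : Multiset ℕ} (hA : TH2.NU.condM A ≤ (c + 1).choose 2)
    (hS : ∀ Z : Multiset ℕ, (∀ z ∈ Z, z ≤ m) → Sgn (A + Z) (c - 1))
    (hE : ∀ Z : Multiset ℕ, (∀ z ∈ Z, z ≤ m) →
      (c + 1).choose 2 ≤ TH2.NU.condM (A + Z) + (m + 1).choose 2 → Sgn (A + Z) (c - 2))
    (hP1 : Al m t d ({c} + R)) (hP0 : Al m t d ({c - 1} + R))
    (hr : ∀ Y : Multiset ℕ, Y.sum ≤ t →
      TH2.NU.condM (R + Y) + (c + 1).choose 2 ≤ (d + 2).choose 2) : Al m t d (A + R) := by
  obtain ⟨D, rfl⟩ : ∃ D, c = D + 1 := ⟨c - 1, by omega⟩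
  have hch := ch_succ D
  have e6 : (D + 1 + 1).choose 2 = (D + 2).choose 2 := rfl
  rw [e6] at hA
  intro T Z hT hZ
  have key : ∀ Y W : Multiset ℕ, (∀ z ∈ Y, z ≤ m) → (∀ z ∈ W, z ≤ m) →
      TH2.NU.condM (A + Y) ≤ (D + 2).choose 2 →
      (D + 2).choose 2 ≤ TH2.NU.condM (A + Y) + (m + 1).choose 2 →
      Sgn (A + Y + (R + T + W)) d := by
    intro Y W hY hW h2 h3
    have a := hP0 T W hT hW
    have b := hP1 T W hT hW
    have ea : {D + 1 - 1} + R + T + W = {D} + (R + T + W) := by
      rw [show D + 1 - 1 = D by omega]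
      abel
    have eb : {D + 1} + R + T + W = {D + 1} + (R + T + W) := by abel
    rw [ea] at a
    rw [eb] at b
    refine glue' (D := D) ⟨by omega, h2, ?_⟩ a b
    rintro e (rfl | he)
    · exact hS Y hY
    · have := hE Y hY h3
      rw [show e = D + 1 - 2 by omega]
      exact this
  have hr' := hr T hT
  rcases Nat.lt_or_ge (TH2.NU.condM (A + Z) + (m + 1).choose 2) ((D + 2).choose 2) with h2 | h2
  · obtain ⟨p, hp⟩ : ∃ p, TH2.NU.condM (A + Z) + p = (D + 2).choose 2 :=
      ⟨_, Nat.add_sub_of_le (by omega)⟩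
    have h3 : TH2.NU.condM (A + (Z + p • {1})) = (D + 2).choose 2 := by
      rw [← add_assoc, condM_add, condM_one]
      exact hp
    have h4 := key (Z + p • {1}) 0 (by
      intro z hz
      rcases Multiset.mem_add.1 hz with hz | hz
      · exact hZ z hz
      · have := Multiset.mem_of_mem_nsmul hz
        rw [Multiset.mem_singleton] at this
        omega) (fun z hz => absurd hz (Multiset.notMem_zero z)) h3.le (by omega)
    refine sgn_unones (p := p) ?_ ?_
    · have h5 : TH2.NU.condM (A + R + T + Z) = TH2.NU.condM (A + Z) + TH2.NU.condM (R + T) := by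
        rw [← condM_add]
        congr 1
        abel
      rw [h5]
      omega
    · have e : A + R + T + Z + p • {1} = A + (Z + p • {1}) + (R + T + 0) := by abel
      rw [e]
      exact h4
  · rw [condM_add] at h2
    obtain ⟨Y, W, rfl, h3, h4⟩ := exists_sub (B := (D + 2).choose 2 - TH2.NU.condM A) Z hZ (by omega)
    have h5 := key Y W (fun z hz => hZ z (Multiset.mem_add.2 (Or.inl hz)))
      (fun z hz => hZ z (Multiset.mem_add.2 (Or.inr hz))) (by rw [condM_add]; omega)
      (by rw [condM_add]; omega)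
    have e : A + R + T + (Y + W) = A + Y + (R + T + W) := by abel
    rw [e]
    exact h5

/-- a quadratic transformation at three of the multiplicities of a family -/
theorem sgn_quad_app {n d : ℕ} {v : Fin n → ℕ} {i : Fin 3 → Fin n} (hi : Function.Injective i)
    (p : PS i d v) (M : Multiset ℕ) (h : Sgn (ms (wcr d i v) + M) (cd i d v)) :
    Sgn (ms v + M) d := by
  obtain ⟨u, hu⟩ : ∃ u : Fin M.toList.length → ℕ, u = fun i => M.toList.get i := ⟨_, rfl⟩
  have hum : ms u = M := by rw [hu, ms_toList]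
  obtain ⟨w, hw⟩ : ∃ w : Fin (n + M.toList.length) → ℕ, w = Fin.append v u := ⟨_, rfl⟩
  have wl : ∀ j, w (Fin.castAdd _ j) = v j := fun j => by rw [hw, Fin.append_left]
  have wr : ∀ j, w (Fin.natAdd n j) = u j := fun j => by rw [hw, Fin.append_right]
  have e1 : ms v + M = ms w := by rw [hw, ms_append, hum]
  have hne : ∀ (j : Fin M.toList.length) (x : Fin n), Fin.natAdd n j ≠ Fin.castAdd _ x := by
    intro j x hx
    have := congrArg Fin.val hx
    have h3 := x.2
    simp only [Fin.val_natAdd, Fin.val_castAdd] at this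
    omega
  have hinj := Fin.castAdd_injective n M.toList.length
  have e2 : wcr d (fun x => Fin.castAdd M.toList.length (i x)) w = Fin.append (wcr d i v) u := by
    funext j
    refine Fin.addCases (fun x => ?_) (fun y => ?_) j
    · rw [Fin.append_left]
      unfold wcr
      simp only [wl, hinj.eq_iff]
    · rw [Fin.append_right]
      unfold wcr
      rw [if_neg (hne y _), if_neg (hne y _), if_neg (hne y _), wr]
  rw [e1]
  refine sgn_quad (i := fun x => Fin.castAdd M.toList.length (i x)) (hinj.comp hi) ⟨?_, ?_, ?_⟩ ?_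
  · simp only [wl]; exact p.p01
  · simp only [wl]; exact p.p02
  · simp only [wl]; exact p.p12
  · rw [e2, ms_append, hum]
    unfold cd
    simp only [wl]
    exact h

theorem sgn_cr {d a b c : ℕ} {M : Multiset ℕ} (hab : a + b ≤ d) (hac : a + c ≤ d)
    (hbc : b + c ≤ d)
    (h : Sgn ({d - (b + c)} + {d - (a + c)} + {d - (a + b)} + M) (2 * d - (a + b + c))) :
    Sgn ({a} + {b} + {c} + M) d := by
  rw [← ms_three]
  refine sgn_quad_app (v := ![a, b, c]) (i := id) Function.injective_id ⟨hab, hac, hbc⟩ M ?_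
  have e : wcr d id ![a, b, c] = ![d - (b + c), d - (a + c), d - (a + b)] := by
    funext x
    fin_cases x <;> rfl
  rw [e, ms_three]
  exact h

/-- **A quadratic transformation.** -/
theorem al_cr {m t d a b c : ℕ} {L : Multiset ℕ} (hab : a + b ≤ d) (hac : a + c ≤ d)
    (hbc : b + c ≤ d)
    (h : Al m t (2 * d - (a + b + c)) ({d - (b + c)} + {d - (a + c)} + {d - (a + b)} + L)) :
    Al m t d ({a} + {b} + {c} + L) := by
  intro Y Z hY hZ
  have h1 := h Y Z hY hZ
  rw [add_assoc, add_assoc] at h1 ⊢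
  exact sgn_cr hab hac hbc h1

theorem al_quad {m t d n : ℕ} {v : Fin n → ℕ} {i : Fin 3 → Fin n} (hi : Function.Injective i)
    (p : PS i d v) (h : Al m t (cd i d v) (ms (wcr d i v))) : Al m t d (ms v) := by
  intro Y Z hY hZ
  have h1 := h Y Z hY hZ
  rw [add_assoc] at h1 ⊢
  exact sgn_quad_app hi p _ h1

theorem sgn_ln {d a b : ℕ} {M : Multiset ℕ} (hd : 1 ≤ d) (ha : 1 ≤ a) (hb : 1 ≤ b)
    (hab : a + b = d + 1) (h1 : Sgn ({a - 1} + {b - 1} + M) (d - 1)) : Sgn ({a} + {b} + M) d := by
  obtain ⟨v, hv⟩ : ∃ v : Fin M.toList.length → ℕ, v = fun i => M.toList.get i := ⟨_, rfl⟩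
  have hvm : ms v = M := by rw [hv, ms_toList]
  obtain ⟨w, hw⟩ : ∃ w : Fin (2 + M.toList.length) → ℕ, w = Fin.append ![a, b] v := ⟨_, rfl⟩
  have e1 : {a} + {b} + M = ms w := by
    rw [hw, ms_append, ms_two, hvm]
  have w0 : w (Fin.castAdd _ 0) = a := by rw [hw, Fin.append_left]; rfl
  have w1 : w (Fin.castAdd _ 1) = b := by rw [hw, Fin.append_left]; rfl
  have wr : ∀ i, w (Fin.natAdd 2 i) = v i := fun i => by rw [hw, Fin.append_right]
  have hne : ∀ (i : Fin M.toList.length) (x : Fin 2), Fin.natAdd 2 i ≠ Fin.castAdd _ x := by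
    intro i x hx
    have := congrArg Fin.val hx
    have h3 := x.2
    simp only [Fin.val_natAdd, Fin.val_castAdd] at this
    omega
  have h01 : (Fin.castAdd M.toList.length (0 : Fin 2)) ≠ Fin.castAdd _ 1 :=
    fun h => absurd (Fin.castAdd_injective _ _ h) (by decide)
  have e2 : sb (Fin.castAdd _ 0) (Fin.castAdd _ 1) 1 w = Fin.append ![a - 1, b - 1] v := by
    funext j
    refine Fin.addCases (fun x => ?_) (fun i => ?_) j
    · rw [Fin.append_left]
      unfold sb
      match x with
      | 0 => rw [if_pos (Or.inl rfl), w0]; rfl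
      | 1 => rw [if_pos (Or.inr rfl), w1]; rfl
    · rw [Fin.append_right]
      unfold sb
      rw [if_neg (by rintro (h | h); exacts [hne i 0 h, hne i 1 h]), wr]
  rw [e1]
  refine sgn_line h01 hd (by rw [w0]; exact ha) (by rw [w1]; exact hb)
    (by rw [w0, w1]; exact hab) ?_
  rw [e2, ms_append, ms_two, hvm]
  exact h1

/-- **A line.** -/
theorem al_line {m t d a b : ℕ} {L : Multiset ℕ} (hd : 1 ≤ d) (ha : 1 ≤ a) (hb : 1 ≤ b)
    (hab : a + b = d + 1) (h : Al m t (d - 1) ({a - 1} + {b - 1} + L)) :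
    Al m t d ({a} + {b} + L) := by
  intro Y Z hY hZ
  have h1 := h Y Z hY hZ
  rw [add_assoc, add_assoc] at h1 ⊢
  exact sgn_ln hd ha hb hab h1

/-- larger multiplicities -/
theorem emp_up {a b : ℕ} (hab : a ≤ b) {M : Multiset ℕ} {S : Set (ℤ × ℤ)} (h : EmpM ({a} + M) S) :
    EmpM ({b} + M) S := by
  obtain ⟨v, hv⟩ : ∃ v : Fin M.toList.length → ℕ, v = fun i => M.toList.get i := ⟨_, rfl⟩
  have hvm : ms v = M := by rw [hv, ms_toList]
  have e : ∀ x : ℕ, ms (Fin.append ![x] v) = {x} + M := fun x => by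
    rw [ms_append, ms_one, hvm]
  refine (EmpM_iff (e b) _).2 (Emp_emb id Function.injective_id (fun i => ?_) ((EmpM_iff (e a) _).1 h))
  refine Fin.addCases (fun x => ?_) (fun y => ?_) i
  · simp only [id, Fin.append_left]
    rw [show x = 0 from Subsingleton.elim _ _]
    exact hab
  · simp only [id, Fin.append_right]
    exact le_refl _

end Pool.Agent.J4.H6.NM
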