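import Pool.Agent.J4.H6.NM.Red

set_option autoImplicit false

/-!
# Eight arbitrary multiplicities
-/

namespace Pool.Agent.J4.H6.NM

open Pool.Agent.TH641.UM Pool.Agent.TH2.NU Pool.Agent.W609.CR Pool.Agent.TH167.SH
  Pool.Agent.J4.H25.Gl

theorem two_condM_le (Y : Multiset ℕ) : 2 * TH2.NU.condM Y ≤ Y.sum * (Y.sum + 1) := by
  induction Y using Multiset.induction with
  | empty => simp [TH2.NU.condM]
  | cons a Y ih =>
    rw [condM_cons, Multiset.sum_cons]
    have h := two_ch a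
    nlinarith [Nat.zero_le (a * Y.sum)]

theorem two_condM_le' {Y : Multiset ℕ} {t : ℕ} (h : Y.sum ≤ t) :
    2 * TH2.NU.condM Y ≤ t * (t + 1) :=
  (two_condM_le Y).trans (Nat.mul_le_mul h (by omega))

/-- Classes which are not near the anticanonical ray. -/
theorem far {m t d w0 w1 w2 w3 w4 w5 w6 w7 : ℕ} (hm : 0 < m) (h01 : w1 ≤ w0) (h12 : w2 ≤ w1)
    (h23 : w3 ≤ w2) (h34 : w4 ≤ w3) (h45 : w5 ≤ w4) (h56 : w6 ≤ w5) (h67 : w7 ≤ w6)
    (hs : w0 + w1 + w2 ≤ d) (hw : 24 * (W611.ff m + t + 1) ≤ w2)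
    (hn : w4 + w5 + w7 + W611.ff m + t + 2 ≤ d) :
    Al m t d ({w0} + {w1} + {w2} + {w3} + {w4} + {w5} + {w6} + {w7}) := by
  have hF := ff_ge m
  have hF2 := ch_le_ff m
  obtain ⟨F, hFe⟩ : ∃ F, F = W611.ff m := ⟨_, rfl⟩
  rw [← hFe] at hw hn hF hF2
  by_cases hA : w0 + w1 + w2 + w3 + w4 + w5 + w6 + w7 + t + 2 * F + 2 * m + 1 ≤ 2 * d
  · have h1 := al_p1 (t := t) (d := d) hm [w0, w1, w2, w3, w4, w5, w6, w7] (by omega) (by
      simp only [List.mem_cons, List.not_mem_nil, or_false, forall_eq_or_imp, forall_eq]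
      rw [← hFe]
      refine ⟨?_, ?_, ?_, ?_, ?_, ?_, ?_, ?_⟩ <;> omega) (by
      simp only [List.pairwise_cons, List.mem_cons, List.not_mem_nil, or_false,
        forall_eq_or_imp, forall_eq, false_imp_iff, implies_true, List.Pairwise.nil, and_true]
      rw [← hFe]
      refine ⟨⟨?_, ?_, ?_, ?_, ?_, ?_, ?_⟩, ⟨?_, ?_, ?_, ?_, ?_, ?_⟩, ⟨?_, ?_, ?_, ?_, ?_⟩,
        ⟨?_, ?_, ?_, ?_⟩, ⟨?_, ?_, ?_⟩, ⟨?_, ?_⟩, ?_⟩ <;> omega) (by
      simp only [List.sum_cons, List.sum_nil]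
      rw [← hFe]
      omega)
    have e3 : (([w0, w1, w2, w3, w4, w5, w6, w7] : List ℕ) : Multiset ℕ) =
        {w0} + {w1} + {w2} + {w3} + {w4} + {w5} + {w6} + {w7} := rfl
    rw [e3] at h1
    exact h1
  · push Not at hA
    rcases Nat.lt_or_ge (F + m + 1 + t) w6 with hB | hB
    · -- the group of three
      have e1 : ({w0} + {w1} + {w2} + {w3} + {w4} + {w5} + {w6} + {w7} : Multiset ℕ) =
          {w4} + {w5} + {w6} + ({w0} + {w1} + {w2} + {w3} + {w7}) := by abel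
      rw [e1]
      refine al_glue (c := w4 + w5 + 1) hm (by omega) (by omega) ?_ ?_ ?_ ?_ ?_ ?_
      · have a4 := two_ch w4
        have a5 := two_ch w5
        have a6 := two_ch w6
        have ac := two_ch (w4 + w5 + 1)
        rw [condM_add, condM_add, condM_single, condM_single, condM_single]
        have k1 : w6 * w6 ≤ w4 * w5 := Nat.mul_le_mul (by omega) (by omega)
        have k2 : w6 ≤ w4 := by omega
        linarith
      · intro Z hZ
        rw [Nat.add_sub_cancel]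
        exact (node3 hm h45 h56 (by omega)).nd Z hZ
      · intro Z hZ hc
        rw [show w4 + w5 + 1 - 2 = w4 + w5 - 1 by omega]
        exact node3e hm h45 h56 (by omega) Z hZ hc
      · rcases Nat.lt_or_ge d (w0 + (w4 + w5 + 1)) with hC | hC
        · have g4 : w4 = w5 := by omega
          have g3 : w3 = w5 := by omega
          have g2 : w2 = w5 := by omega
          have g1 : w1 = w5 := by omega
          have gd : d = w0 + 2 * w5 := by omega
          rw [g4, g3, g2, g1, gd, show w5 + w5 + 1 = 2 * w5 + 1 by ring]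
          refine par_sp hm (by omega) (by omega) ?_ ?_ ?_ ?_ <;> rw [← hFe] <;> omega
        · refine par6 hm h01 h12 h23 (by omega) hs hC ?_ ?_ ?_ <;> rw [← hFe] <;> omega
      · rw [Nat.add_sub_cancel]
        refine par6 hm h01 h12 h23 (by omega) hs (by omega) ?_ ?_ ?_ <;> rw [← hFe] <;> omega
      · intro Y hY
        have aY := two_condM_le' hY
        have a0 := two_ch w0
        have a1 := two_ch w1
        have a2 := two_ch w2
        have a3 := two_ch w3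
        have a7 := two_ch w7
        have ac := two_ch (w4 + w5 + 1)
        have ad := two_ch (d + 1)
        have hr := room3 (t := t) h01 h12 h23 h34 h45 (show w7 ≤ w5 by omega) (by omega) hs
          (by omega)
        simp only [condM_add, condM_single] at aY ⊢
        have e2 : (d + 1 + 1).choose 2 = (d + 2).choose 2 := rfl
        rw [← e2]
        linarith
    · -- the group of one
      have e1 : ({w0} + {w1} + {w2} + {w3} + {w4} + {w5} + {w6} + {w7} : Multiset ℕ) =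
          {w5} + ({w0} + {w1} + {w2} + {w3} + {w4} + {w6} + {w7}) := by abel
      rw [e1]
      obtain ⟨s, hse⟩ : ∃ s, s = F + m + 1 + t := ⟨_, rfl⟩
      rw [← hse] at hB
      obtain ⟨c, hc⟩ : ∃ c, w0 + s + c = d := ⟨d - (w0 + s), by omega⟩
      refine al_glue (c := c) hm (by omega) (by omega) ?_ ?_ ?_ ?_ ?_ ?_
      · rw [condM_single]
        exact Nat.choose_le_choose 2 (by omega)
      · intro Z hZ
        exact (node1 hm (by omega) (by rw [← hFe]; omega)).nd Z hZ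
      · intro Z hZ _
        exact (node1 hm (by omega) (by rw [← hFe]; omega)).nd Z hZ
      · exact par8 (s := s) hm h01 h12 h23 h34 (by omega) (by omega) hs (by rw [← hFe]; omega)
          (by omega) (by omega) (by omega) (by omega)
      · exact par8 (s := s) hm h01 h12 h23 h34 (by omega) (by omega) hs (by rw [← hFe]; omega)
          (by omega) (by omega) (by omega) (by omega)
      · intro Y hY
        have aY := two_condM_le' hY
        have a0 := two_ch w0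
        have a1 := two_ch w1
        have a2 := two_ch w2
        have a3 := two_ch w3
        have a4 := two_ch w4
        have a6 := two_ch w6
        have a7 := two_ch w7
        have ac := two_ch c
        have ad := two_ch (d + 1)
        have hr := room1 (y1 := w6) (y2 := w7) (t := t) h01 h12 h23 h34 hB (by omega)
          (show t ≤ s by omega) hs hc (by omega)
        simp only [condM_add, condM_single] at aY ⊢
        have e2 : (d + 1 + 1).choose 2 = (d + 2).choose 2 := rfl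
        rw [← e2]
        linarith

theorem up1 {G n e ε : ℤ} (hG : 6 ≤ G) (h1 : n ≤ 9 * G ^ 2) (h2 : 5 * G ≤ e) (h3 : e ≤ 5 * G + 1)
    (h4 : 0 ≤ ε) : n + 2 * e ^ 2 - 2 * e * ε ≤ 81 * G ^ 2 := by
  have k1 : 0 ≤ e * ε := mul_nonneg (by linarith) h4
  have k2 : e * e ≤ (6 * G) * (6 * G) := mul_le_mul (by linarith) (by linarith) (by linarith)
    (by linarith)
  nlinarith

theorem lo1 {G n e ε : ℤ} (hG : 6 ≤ G) (h1 : 0 ≤ n) (h2 : 5 * G ≤ e) (h4 : ε ≤ 3 * G) :
    9 * G ^ 2 < n + 2 * e ^ 2 - 2 * e * ε := by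
  have k1 : (5 * G) * (2 * G) ≤ e * (e - ε) := mul_le_mul h2 (by linarith) (by linarith)
    (by linarith)
  nlinarith

theorem le1 {G κ x s : ℤ} (hG : 6 ≤ G) (h1 : (κ - x) ^ 2 ≤ 2 * κ ^ 2 - 2 * s)
    (h2 : κ ^ 2 - s ≤ 81 * G ^ 2) : κ - x ≤ 13 * G := by
  by_contra hcon
  push Not at hcon
  have k1 : (13 * G) * (13 * G) ≤ (κ - x) * (κ - x) := mul_le_mul hcon.le hcon.le (by linarith)
    (by linarith)
  nlinarith

theorem po1 {G κ s : ℤ} (hG : 6 ≤ G) (h1 : 43 * G ≤ κ) (h2 : κ ^ 2 - s ≤ 81 * G ^ 2) :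
    κ ^ 2 ≤ 2 * s := by
  have k1 : (43 * G) * (43 * G) ≤ κ * κ := mul_le_mul h1 h1 (by linarith) (by linarith)
  nlinarith

/-- **Eight arbitrary multiplicities.** -/
theorem main8 {m t d w0 w1 w2 w3 w4 w5 w6 w7 : ℕ} (hm : 0 < m) (h01 : w1 ≤ w0) (h12 : w2 ≤ w1)
    (h23 : w3 ≤ w2) (h34 : w4 ≤ w3) (h45 : w5 ≤ w4) (h56 : w6 ≤ w5) (h67 : w7 ≤ w6)
    (hs : w0 + w1 + w2 ≤ d) (hw : 50 * (W611.ff m + t + 1) ≤ w2) :
    Al m t d ({w0} + {w1} + {w2} + {w3} + {w4} + {w5} + {w6} + {w7}) := by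
  have hF := ff_ge m
  have hF2 := ch_le_ff m
  rcases Nat.lt_or_ge d (w4 + w5 + w7 + W611.ff m + t + 2) with hn | hn
  · obtain ⟨G, hG⟩ : ∃ G, G = W611.ff m + t + 1 := ⟨_, rfl⟩
    have hw' : 50 * G ≤ w2 := by omega
    have hn' : d ≤ w4 + w5 + w7 + G := by omega
    have hG6 : 6 ≤ G := by omega
    -- the parents
    have key : ∀ c : ℕ, w7 + 5 * G ≤ c → c ≤ w7 + 5 * G + 1 →
        Al m t d ({c} + ({w0} + {w1} + {w2} + {w3} + {w4} + {w5} + {w6})) := by
      intro c hc1 hc2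
      obtain ⟨n1, n2, n3⟩ := near_le (d := (d : ℤ)) (G := (G : ℤ)) (x0 := (w0 : ℤ)) (x1 := (w1 : ℤ))
        (x2 := (w2 : ℤ)) (x3 := (w3 : ℤ)) (x4 := (w4 : ℤ)) (x5 := (w5 : ℤ)) (x6 := (w6 : ℤ))
        (x7 := (w7 : ℤ)) (by exact_mod_cast h01) (by exact_mod_cast h12) (by exact_mod_cast h23)
        (by exact_mod_cast h34) (by exact_mod_cast h45) (by exact_mod_cast h56)
        (by exact_mod_cast h67) (by exact_mod_cast hs) (by exact_mod_cast hn')
      obtain ⟨v, hv⟩ : ∃ v : Fin 8 → ℕ, v = ![c, w0, w1, w2, w3, w4, w5, w6] := ⟨_, rfl⟩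
      have ev : ms v = {c} + ({w0} + {w1} + {w2} + {w3} + {w4} + {w5} + {w6}) := by
        unfold ms
        rw [Fin.sum_univ_eight, hv]
        simp only [Matrix.cons_val]
        abel
      obtain ⟨κ, hκ⟩ : ∃ κ : ℤ, κ = 3 * (d : ℤ) - (c + w0 + w1 + w2 + w3 + w4 + w5 + w6) := ⟨_, rfl⟩
      obtain ⟨s, hs'⟩ : ∃ s : ℤ, s = (d : ℤ) ^ 2 - ((c : ℤ) ^ 2 + (w0 : ℤ) ^ 2 + (w1 : ℤ) ^ 2 +
        (w2 : ℤ) ^ 2 + (w3 : ℤ) ^ 2 + (w4 : ℤ) ^ 2 + (w5 : ℤ) ^ 2 + (w6 : ℤ) ^ 2) := ⟨_, rfl⟩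
      have hkv : kk d v = κ := by
        unfold kk
        rw [Fin.sum_univ_eight, hv, hκ]
        simp only [Matrix.cons_val]
      have hsv : ip d v d v = s := by
        unfold ip
        rw [Fin.sum_univ_eight, hv, hs']
        simp only [Matrix.cons_val]
        ring
      obtain ⟨e, he⟩ : ∃ e : ℤ, e = (c : ℤ) - w7 := ⟨_, rfl⟩
      obtain ⟨ε, hε⟩ : ∃ ε : ℤ, ε = 3 * (d : ℤ) - (w0 + w1 + w2 + w3 + w4 + w5 + w6 + w7) - w7 :=
        ⟨_, rfl⟩
      obtain ⟨nD, hnD⟩ : ∃ nD : ℤ, nD = (3 * (d : ℤ) - (w0 + w1 + w2 + w3 + w4 + w5 + w6 + w7)) ^ 2 -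
        ((d : ℤ) ^ 2 - ((w0 : ℤ) ^ 2 + (w1 : ℤ) ^ 2 + (w2 : ℤ) ^ 2 + (w3 : ℤ) ^ 2 + (w4 : ℤ) ^ 2 +
          (w5 : ℤ) ^ 2 + (w6 : ℤ) ^ 2 + (w7 : ℤ) ^ 2)) := ⟨_, rfl⟩
      rw [← hε] at n1 n2
      rw [← hnD] at n3
      have he1 : 5 * (G : ℤ) ≤ e := by omega
      have he2 : e ≤ 5 * (G : ℤ) + 1 := by omega
      have hG6' : (6 : ℤ) ≤ G := by exact_mod_cast hG6
      -- the Hodge index theorem for the given class
      have hnD0 : 0 ≤ nD := by
        obtain ⟨v', hv'⟩ : ∃ v' : Fin 8 → ℕ, v' = ![w0, w1, w2, w3, w4, w5, w6, w7] := ⟨_, rfl⟩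
        have b1 : kk d v' = 3 * (d : ℤ) - (w0 + w1 + w2 + w3 + w4 + w5 + w6 + w7) := by
          unfold kk
          rw [Fin.sum_univ_eight, hv']
          simp only [Matrix.cons_val]
        have b2 : ip d v' d v' = (d : ℤ) ^ 2 - ((w0 : ℤ) ^ 2 + (w1 : ℤ) ^ 2 + (w2 : ℤ) ^ 2 +
            (w3 : ℤ) ^ 2 + (w4 : ℤ) ^ 2 + (w5 : ℤ) ^ 2 + (w6 : ℤ) ^ 2 + (w7 : ℤ) ^ 2) := by
          unfold ip
          rw [Fin.sum_univ_eight, hv']
          simp only [Matrix.cons_val]
          ring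
        have b3 := one_of b1 b2 0
        have b4 := sq_nonneg (3 * (d : ℤ) - (w0 + w1 + w2 + w3 + w4 + w5 + w6 + w7) - v' 0)
        rw [hnD]
        linarith
      have hκe : κ = w7 + ε - e := by
        rw [hκ, hε, he]
        ring
      have hns : κ ^ 2 - s = nD + 2 * e ^ 2 - 2 * e * ε := by
        rw [hκ, hs', hnD, he, hε]
        ring
      have hw7 : 49 * (G : ℤ) ≤ w7 := by
        have : 49 * G ≤ w7 := by omega
        exact_mod_cast this
      have hκ1 : 43 * (G : ℤ) ≤ κ := by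
        rw [hκe]
        linarith
      have hκ2 : (w7 : ℤ) - 6 * G ≤ κ := by
        rw [hκe]
        linarith
      have hup : κ ^ 2 - s ≤ 81 * (G : ℤ) ^ 2 := by
        rw [hns]
        exact up1 hG6' n3 he1 he2 n1
      have hlo : 9 * (G : ℤ) ^ 2 < κ ^ 2 - s := by
        rw [hns]
        exact lo1 hG6' hnD0 he1 n2
      rw [← ev]
      refine reduce (κ := κ) (s := s) (by linarith) (po1 hG6' hκ1 hup) ?_ d v hkv hsv
      intro d' v' hv'a hv's hk' hs''
      have c01 : v' 1 ≤ v' 0 := hv'a (by decide)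
      have c12 : v' 2 ≤ v' 1 := hv'a (by decide)
      have c23 : v' 3 ≤ v' 2 := hv'a (by decide)
      have c34 : v' 4 ≤ v' 3 := hv'a (by decide)
      have c45 : v' 5 ≤ v' 4 := hv'a (by decide)
      have c56 : v' 6 ≤ v' 5 := hv'a (by decide)
      have c67 : v' 7 ≤ v' 6 := hv'a (by decide)
      have hlow : 24 * G ≤ v' 7 := by
        have b3 := le1 hG6' (one_of hk' hs'' 7) hup
        have b4 : 24 * (G : ℤ) ≤ (v' 7 : ℤ) := by linarith
        exact_mod_cast b4
      have ev' : ms v' = {v' 0} + {v' 1} + {v' 2} + {v' 3} + {v' 4} + {v' 5} + {v' 6} + {v' 7} := by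
        unfold ms
        rw [Fin.sum_univ_eight]
      rw [ev']
      refine far hm c01 c12 c23 c34 c45 c56 c67 hv's (by omega) ?_
      by_contra hcon
      push Not at hcon
      have hcon' : d' ≤ v' 4 + v' 5 + v' 7 + G := by omega
      obtain ⟨-, -, n6⟩ := near_le (d := (d' : ℤ)) (G := (G : ℤ)) (x0 := (v' 0 : ℤ))
        (x1 := (v' 1 : ℤ)) (x2 := (v' 2 : ℤ)) (x3 := (v' 3 : ℤ)) (x4 := (v' 4 : ℤ))
        (x5 := (v' 5 : ℤ)) (x6 := (v' 6 : ℤ)) (x7 := (v' 7 : ℤ)) (by exact_mod_cast c01)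
        (by exact_mod_cast c12) (by exact_mod_cast c23) (by exact_mod_cast c34)
        (by exact_mod_cast c45) (by exact_mod_cast c56) (by exact_mod_cast c67)
        (by exact_mod_cast hv's) (by exact_mod_cast hcon')
      have b1 : 3 * (d' : ℤ) - (v' 0 + v' 1 + v' 2 + v' 3 + v' 4 + v' 5 + v' 6 + v' 7) = κ := by
        rw [← hk']
        unfold kk
        rw [Fin.sum_univ_eight]
      have b2 : (d' : ℤ) ^ 2 - ((v' 0 : ℤ) ^ 2 + (v' 1 : ℤ) ^ 2 + (v' 2 : ℤ) ^ 2 +
            (v' 3 : ℤ) ^ 2 + (v' 4 : ℤ) ^ 2 + (v' 5 : ℤ) ^ 2 + (v' 6 : ℤ) ^ 2 + (v' 7 : ℤ) ^ 2) = s := by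
        rw [← hs'']
        unfold ip
        rw [Fin.sum_univ_eight]
        ring
      rw [b1, b2] at n6
      linarith
    have e1 : ({w0} + {w1} + {w2} + {w3} + {w4} + {w5} + {w6} + {w7} : Multiset ℕ) =
        {w7} + ({w0} + {w1} + {w2} + {w3} + {w4} + {w5} + {w6}) := by abel
    rw [e1]
    refine al_glue (c := w7 + 5 * G + 1) hm (by omega) (by omega) ?_ ?_ ?_ (key _ (by omega) le_rfl)
      (key _ (by omega) (by omega)) ?_
    · rw [condM_single]
      exact Nat.choose_le_choose 2 (by omega)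
    · intro Z hZ
      exact (node1 hm (by omega) (by omega)).nd Z hZ
    · intro Z hZ _
      exact (node1 hm (by omega) (by omega)).nd Z hZ
    · intro Y hY
      have aY := two_condM_le' hY
      have a0 := two_ch w0
      have a1 := two_ch w1
      have a2 := two_ch w2
      have a3 := two_ch w3
      have a4 := two_ch w4
      have a5 := two_ch w5
      have a6 := two_ch w6
      have ac := two_ch (w7 + 5 * G + 1)
      have ad := two_ch (d + 1)
      have hr := room7 (t := t) (G := G) h01 h12 h23 h34 h45 h56 h67 (by omega) (by omega) hs hw'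
      simp only [condM_add, condM_single] at aY ⊢
      have e2 : (d + 1 + 1).choose 2 = (d + 2).choose 2 := rfl
      rw [← e2]
      linarith
  · exact far hm h01 h12 h23 h34 h45 h56 h67 hs (by omega) hn

end Pool.Agent.J4.H6.NM
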