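import Pool.Agent.J4.H6.NM.Base

set_option autoImplicit false

/-!
# The groups
-/

namespace Pool.Agent.J4.H6.NM

open Finset Pool.Agent.TH176.Nag Pool.Agent.TH603.Sur Pool.Agent.TH641.UM Pool.Agent.TH2.NU
  Pool.Agent.J4.H25.Gl

theorem ff_ge (m : ℕ) : 3 * m + 2 ≤ W611.ff m := by
  unfold W611.ff
  omega

theorem ch_le_ff (m : ℕ) : 2 * (m + 1).choose 2 + 2 * m + 2 ≤ W611.ff m := by
  rw [two_ch]
  unfold W611.ff
  nlinarith

theorem Al.nd {m d : ℕ} {A : Multiset ℕ} (h : Al m 0 d A) (Z : Multiset ℕ) (hZ : ∀ z ∈ Z, z ≤ m) :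
    Sgn (A + Z) d := by
  have := h 0 Z (by simp) hZ
  rwa [add_zero] at this

/-- one large point -/
theorem node1 {m x d : ℕ} (hm : 0 < m) (hx : 2 * m + 1 ≤ x) (h : x + W611.ff m ≤ d) :
    Al m 0 d {x} := by
  have h1 := al_p1 (t := 0) (d := d) hm [x] (by omega) (by
    intro a ha
    rw [List.mem_singleton] at ha
    omega) (List.pairwise_singleton _ _) (by
    rw [List.sum_singleton]
    omega)
  exact h1

/-- three large points -/
theorem node3 {m x y z : ℕ} (hm : 0 < m) (hxy : y ≤ x) (hyz : z ≤ y)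
    (hz : W611.ff m + m + 2 ≤ z) : Al m 0 (x + y) ({x} + {y} + {z}) := by
  have hF := ff_ge m
  rw [← add_zero ({x} + {y} + {z} : Multiset ℕ)]
  refine al_cr le_rfl (by omega) (by omega) ?_
  have h1 := al_p1 (t := 0) (d := x + y - z) hm [x - z, y - z, 0] (by omega) (by
    simp only [List.mem_cons, List.not_mem_nil, or_false, forall_eq_or_imp, forall_eq]
    omega) (by
    simp only [List.pairwise_cons, List.mem_cons, List.not_mem_nil, or_false, forall_eq_or_imp,
      forall_eq, false_imp_iff, implies_true, List.Pairwise.nil, and_true]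
    omega) (by
    simp only [List.sum_cons, List.sum_nil]
    omega)
  rw [show 2 * (x + y) - (x + y + z) = x + y - z by omega, show x + y - (y + z) = x - z by omega,
    show x + y - (x + z) = y - z by omega, Nat.sub_self]
  exact h1

/-- three large points of the same multiplicity -/
theorem node_eq {m b : ℕ} (hm : 0 < m) (hb : W611.ff m + m + 2 ≤ b) :
    Al m 0 (b + b - 1) ({b - 1} + {b} + {b}) := by
  have hF := ff_ge m
  have e : ({b - 1} + {b} + {b} : Multiset ℕ) = {b} + {b} + {b - 1} := by abel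
  rw [e]
  refine al_line (by omega) (by omega) (by omega) (by omega) ?_
  rw [← add_zero ({b - 1} + {b - 1} + {b - 1} : Multiset ℕ)]
  refine al_cr (by omega) (by omega) (by omega) ?_
  have h1 := al_p1 (t := 0) (d := b - 1) hm [0, 0, 0] (by omega) (by
    simp only [List.mem_cons, List.not_mem_nil, or_false, forall_eq_or_imp, forall_eq]
    omega) (by
    simp only [List.pairwise_cons, List.mem_cons, List.not_mem_nil, or_false, forall_eq_or_imp,
      forall_eq, false_imp_iff, implies_true, List.Pairwise.nil, and_true]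
    omega) (by
    simp only [List.sum_cons, List.sum_nil]
    omega)
  rw [show 2 * (b + b - 1 - 1) - (b - 1 + (b - 1) + (b - 1)) = b - 1 by omega,
    show b + b - 1 - 1 - (b - 1 + (b - 1)) = 0 by omega]
  exact h1

/-- three large points, one of the multiplicities decreased -/
theorem node_dn {m x y z : ℕ} (hm : 0 < m) (hxy : y ≤ x) (hyz : z ≤ y)
    (hz : W611.ff m + m + 2 ≤ z) : Al m 0 (x + y - 1) ({x - 1} + {y} + {z}) := by
  have hF := ff_ge m
  rcases Nat.lt_or_ge z x with h | h
  · rw [← add_zero ({x - 1} + {y} + {z} : Multiset ℕ)]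
    refine al_cr (by omega) (by omega) (by omega) ?_
    have h1 := al_p1 (t := 0) (d := x + y - 1 - z) hm [x - 1 - z, y - z, 0] (by omega) (by
      simp only [List.mem_cons, List.not_mem_nil, or_false, forall_eq_or_imp, forall_eq]
      omega) (by
      simp only [List.pairwise_cons, List.mem_cons, List.not_mem_nil, or_false, forall_eq_or_imp,
        forall_eq, false_imp_iff, implies_true, List.Pairwise.nil, and_true]
      omega) (by
      simp only [List.sum_cons, List.sum_nil]
      omega)
    rw [show 2 * (x + y - 1) - (x - 1 + y + z) = x + y - 1 - z by omega,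
      show x + y - 1 - (y + z) = x - 1 - z by omega,
      show x + y - 1 - (x - 1 + z) = y - z by omega, show x + y - 1 - (x - 1 + y) = 0 by omega]
    exact h1
  · have h1 : z = x := by omega
    have h2 : y = x := by omega
    subst h2 h1
    exact node_eq hm hz

/-- three large points in the degree below -/
theorem node3e {m x y z : ℕ} (hm : 0 < m) (hxy : y ≤ x) (hyz : z ≤ y)
    (hz : W611.ff m + m + 2 ≤ z) (Z : Multiset ℕ) (hZ : ∀ a ∈ Z, a ≤ m)
    (hc : (x + y + 1 + 1).choose 2 ≤ TH2.NU.condM ({x} + {y} + {z} + Z) + (m + 1).choose 2) :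
    Sgn ({x} + {y} + {z} + Z) (x + y - 1) := by
  have hF := ff_ge m
  have hF2 := ch_le_ff m
  have h1 := (node_dn hm hxy hyz hz).nd Z hZ
  have hch := ch_succ (x + y)
  obtain ⟨x', rfl⟩ : ∃ x', x = x' + 1 := ⟨x - 1, by omega⟩
  have hch' := ch_succ x'
  have e0 : TH2.NU.condM ({x' + 1} + {y} + {z} + Z) =
      TH2.NU.condM ({x' + 1 - 1} + {y} + {z} + Z) + (x' + 1) := by
    simp only [condM_add, condM_single, Nat.add_sub_cancel]
    rw [← ch_succ x']
    ring
  have h2 : EmpM ({x' + 1 - 1} + {y} + {z} + Z) (TZ (x' + 1 + y - 1)) := by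
    refine h1.1 ?_
    have e1 : x' + 1 + y - 1 + 2 = x' + 1 + y + 1 := by omega
    rw [e1]
    have e2 : (x' + 1 + y + 1 + 1).choose 2 = (x' + 1 + y + 2).choose 2 := rfl
    omega
  refine Sgn_of_or (Or.inl ?_)
  have e3 : ∀ u : ℕ, ({u} + {y} + {z} + Z : Multiset ℕ) = {u} + ({y} + {z} + Z) := fun u => by
    rw [add_assoc, add_assoc, add_assoc]
  rw [e3] at h2 ⊢
  exact emp_up (by omega) h2

end Pool.Agent.J4.H6.NM
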