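import Pool.Agent.J4.H6.NM.Node

set_option autoImplicit false

/-!
# The parents
-/

namespace Pool.Agent.J4.H6.NM

open Finset Pool.Agent.TH641.UM Pool.Agent.TH2.NU

/-- Six large multiplicities. -/
theorem par6 {m t d r0 r1 r2 r3 y c : ℕ} (hm : 0 < m) (h01 : r1 ≤ r0) (h12 : r2 ≤ r1)
    (h23 : r3 ≤ r2) (h3y : y ≤ r3) (hs : r0 + r1 + r2 ≤ d) (h0c : r0 + c ≤ d)
    (hr3 : W611.ff m + t ≤ r3) (hcy : y + t + 2 * W611.ff m + 2 * m + 1 ≤ c)
    (hy : c + y + t + W611.ff m ≤ d) :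
    Al m t d ({c} + ({r0} + {r1} + {r2} + {r3} + {y})) := by
  have hF := ff_ge m
  obtain ⟨F, hFe⟩ : ∃ F, F = W611.ff m := ⟨_, rfl⟩
  rw [← hFe] at hr3 hcy hy hF
  rcases Nat.lt_or_ge d (r0 + r1 + c) with hi | hi
  · have e1 : ({c} + ({r0} + {r1} + {r2} + {r3} + {y}) : Multiset ℕ) =
        {r0} + {r1} + {c} + ({r2} + {r3} + {y}) := by abel
    rw [e1]
    refine al_cr (by omega) h0c (by omega) ?_
    obtain ⟨l1, hl1⟩ : ∃ l1, l1 = d - (r1 + c) := ⟨_, rfl⟩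
    obtain ⟨l0, hl0⟩ : ∃ l0, l0 = d - (r0 + c) := ⟨_, rfl⟩
    obtain ⟨e, he⟩ : ∃ e, e = d - (r0 + r1) := ⟨_, rfl⟩
    obtain ⟨d', hd'⟩ : ∃ d', d' = 2 * d - (r0 + r1 + c) := ⟨_, rfl⟩
    rw [← hl1, ← hl0, ← he, ← hd']
    rcases Nat.lt_or_ge d (c + r2 + r3) with hj | hj
    · have e2 : ({l1} + {l0} + {e} + ({r2} + {r3} + {y}) : Multiset ℕ) =
          {e} + {r2} + {r3} + ({l1} + {l0} + {y}) := by abel
      rw [e2]
      refine al_cr (by omega) (by omega) (by omega) ?_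
      obtain ⟨q, hq⟩ : ∃ q, q = d' - (r2 + r3) := ⟨_, rfl⟩
      obtain ⟨l3, hl3⟩ : ∃ l3, l3 = d' - (e + r3) := ⟨_, rfl⟩
      obtain ⟨l2, hl2⟩ : ∃ l2, l2 = d' - (e + r2) := ⟨_, rfl⟩
      obtain ⟨d2, hd2⟩ : ∃ d2, d2 = 2 * d' - (e + r2 + r3) := ⟨_, rfl⟩
      rw [← hq, ← hl3, ← hl2, ← hd2]
      have h1 := al_p1 (t := t) (d := d2) hm [q, l3, l2, l1, l0, y] (by omega) (by
        simp only [List.mem_cons, List.not_mem_nil, or_false, forall_eq_or_imp, forall_eq]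
        rw [← hFe]
        refine ⟨?_, ?_, ?_, ?_, ?_, ?_⟩ <;> omega) (by
        simp only [List.pairwise_cons, List.mem_cons, List.not_mem_nil, or_false,
          forall_eq_or_imp, forall_eq, false_imp_iff, implies_true, List.Pairwise.nil, and_true]
        rw [← hFe]
        refine ⟨⟨?_, ?_, ?_, ?_, ?_⟩, ⟨?_, ?_, ?_, ?_⟩, ⟨?_, ?_, ?_⟩, ⟨?_, ?_⟩, ?_⟩ <;> omega) (by
        simp only [List.sum_cons, List.sum_nil]
        rw [← hFe]
        omega)
      have e3 : (([q, l3, l2, l1, l0, y] : List ℕ) : Multiset ℕ) =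
          {q} + {l3} + {l2} + ({l1} + {l0} + {y}) := rfl
      rw [e3] at h1
      exact h1
    · have h1 := al_p1 (t := t) (d := d') hm [l1, l0, e, r2, r3, y] (by omega) (by
        simp only [List.mem_cons, List.not_mem_nil, or_false, forall_eq_or_imp, forall_eq]
        rw [← hFe]
        refine ⟨?_, ?_, ?_, ?_, ?_, ?_⟩ <;> omega) (by
        simp only [List.pairwise_cons, List.mem_cons, List.not_mem_nil, or_false,
          forall_eq_or_imp, forall_eq, false_imp_iff, implies_true, List.Pairwise.nil, and_true]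
        rw [← hFe]
        refine ⟨⟨?_, ?_, ?_, ?_, ?_⟩, ⟨?_, ?_, ?_, ?_⟩, ⟨?_, ?_, ?_⟩, ⟨?_, ?_⟩, ?_⟩ <;> omega) (by
        simp only [List.sum_cons, List.sum_nil]
        rw [← hFe]
        omega)
      have e3 : (([l1, l0, e, r2, r3, y] : List ℕ) : Multiset ℕ) =
          {l1} + {l0} + {e} + ({r2} + {r3} + {y}) := rfl
      rw [e3] at h1
      exact h1
  · have h1 := al_p1 (t := t) (d := d) hm [c, r0, r1, r2, r3, y] (by omega) (by
      simp only [List.mem_cons, List.not_mem_nil, or_false, forall_eq_or_imp, forall_eq]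
      rw [← hFe]
      refine ⟨?_, ?_, ?_, ?_, ?_, ?_⟩ <;> omega) (by
      simp only [List.pairwise_cons, List.mem_cons, List.not_mem_nil, or_false,
        forall_eq_or_imp, forall_eq, false_imp_iff, implies_true, List.Pairwise.nil, and_true]
      rw [← hFe]
      refine ⟨⟨?_, ?_, ?_, ?_, ?_⟩, ⟨?_, ?_, ?_, ?_⟩, ⟨?_, ?_, ?_⟩, ⟨?_, ?_⟩, ?_⟩ <;> omega) (by
      simp only [List.sum_cons, List.sum_nil]
      rw [← hFe]
      omega)
    have e3 : (([c, r0, r1, r2, r3, y] : List ℕ) : Multiset ℕ) =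
        {c} + ({r0} + {r1} + {r2} + {r3} + {y}) := rfl
    rw [e3] at h1
    exact h1

/-- Eight multiplicities, two of them of size at most `s`. -/
theorem par8 {m t s d r0 r1 r2 r3 r4 y1 y2 c : ℕ} (hm : 0 < m) (h01 : r1 ≤ r0) (h12 : r2 ≤ r1)
    (h23 : r3 ≤ r2) (h34 : r4 ≤ r3) (hy1 : y1 ≤ s) (hy2 : y2 ≤ s)
    (hs : r0 + r1 + r2 ≤ d) (hst : W611.ff m + m + 1 + t ≤ s) (hc1 : r0 + c + s ≤ d)
    (hc2 : d ≤ r0 + c + s + 2) (hr3 : s ≤ r3) (hr2 : 7 * s ≤ r2) :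
    Al m t d ({c} + ({r0} + {r1} + {r2} + {r3} + {r4} + {y1} + {y2})) := by
  have hF := ff_ge m
  obtain ⟨F, hFe⟩ : ∃ F, F = W611.ff m := ⟨_, rfl⟩
  rw [← hFe] at hst hF
  have e1 : ({c} + ({r0} + {r1} + {r2} + {r3} + {r4} + {y1} + {y2}) : Multiset ℕ) =
      {r0} + {r1} + {c} + ({r2} + {r3} + {r4} + {y1} + {y2}) := by abel
  rw [e1]
  refine al_cr (by omega) (by omega) (by omega) ?_
  obtain ⟨l1, hl1⟩ : ∃ l1, l1 = d - (r1 + c) := ⟨_, rfl⟩
  obtain ⟨l0, hl0⟩ : ∃ l0, l0 = d - (r0 + c) := ⟨_, rfl⟩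
  obtain ⟨e, he⟩ : ∃ e, e = d - (r0 + r1) := ⟨_, rfl⟩
  obtain ⟨d', hd'⟩ : ∃ d', d' = 2 * d - (r0 + r1 + c) := ⟨_, rfl⟩
  rw [← hl1, ← hl0, ← he, ← hd']
  rcases Nat.lt_or_ge d (c + r2 + r3) with hj | hj
  · have e2 : ({l1} + {l0} + {e} + ({r2} + {r3} + {r4} + {y1} + {y2}) : Multiset ℕ) =
        {e} + {r2} + {r3} + ({l1} + {l0} + {r4} + {y1} + {y2}) := by abel
    rw [e2]
    refine al_cr (by omega) (by omega) (by omega) ?_
    obtain ⟨q, hq⟩ : ∃ q, q = d' - (r2 + r3) := ⟨_, rfl⟩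
    obtain ⟨l3, hl3⟩ : ∃ l3, l3 = d' - (e + r3) := ⟨_, rfl⟩
    obtain ⟨l2, hl2⟩ : ∃ l2, l2 = d' - (e + r2) := ⟨_, rfl⟩
    obtain ⟨d2, hd2⟩ : ∃ d2, d2 = 2 * d' - (e + r2 + r3) := ⟨_, rfl⟩
    rw [← hq, ← hl3, ← hl2, ← hd2]
    have h1 := al_p1 (t := t) (d := d2) hm [q, l3, l2, l1, l0, r4, y1, y2] (by omega) (by
      simp only [List.mem_cons, List.not_mem_nil, or_false, forall_eq_or_imp, forall_eq]
      rw [← hFe]
      refine ⟨?_, ?_, ?_, ?_, ?_, ?_, ?_, ?_⟩ <;> omega) (by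
      simp only [List.pairwise_cons, List.mem_cons, List.not_mem_nil, or_false,
        forall_eq_or_imp, forall_eq, false_imp_iff, implies_true, List.Pairwise.nil, and_true]
      rw [← hFe]
      refine ⟨⟨?_, ?_, ?_, ?_, ?_, ?_, ?_⟩, ⟨?_, ?_, ?_, ?_, ?_, ?_⟩, ⟨?_, ?_, ?_, ?_, ?_⟩,
        ⟨?_, ?_, ?_, ?_⟩, ⟨?_, ?_, ?_⟩, ⟨?_, ?_⟩, ?_⟩ <;> omega) (by
      simp only [List.sum_cons, List.sum_nil]
      rw [← hFe]
      omega)
    have e3 : (([q, l3, l2, l1, l0, r4, y1, y2] : List ℕ) : Multiset ℕ) =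
        {q} + {l3} + {l2} + ({l1} + {l0} + {r4} + {y1} + {y2}) := rfl
    rw [e3] at h1
    exact h1
  · have h1 := al_p1 (t := t) (d := d') hm [l1, l0, e, r2, r3, r4, y1, y2] (by omega) (by
      simp only [List.mem_cons, List.not_mem_nil, or_false, forall_eq_or_imp, forall_eq]
      rw [← hFe]
      refine ⟨?_, ?_, ?_, ?_, ?_, ?_, ?_, ?_⟩ <;> omega) (by
      simp only [List.pairwise_cons, List.mem_cons, List.not_mem_nil, or_false,
        forall_eq_or_imp, forall_eq, false_imp_iff, implies_true, List.Pairwise.nil, and_true]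
      rw [← hFe]
      refine ⟨⟨?_, ?_, ?_, ?_, ?_, ?_, ?_⟩, ⟨?_, ?_, ?_, ?_, ?_, ?_⟩, ⟨?_, ?_, ?_, ?_, ?_⟩,
        ⟨?_, ?_, ?_, ?_⟩, ⟨?_, ?_, ?_⟩, ⟨?_, ?_⟩, ?_⟩ <;> omega) (by
      simp only [List.sum_cons, List.sum_nil]
      rw [← hFe]
      omega)
    have e3 : (([l1, l0, e, r2, r3, r4, y1, y2] : List ℕ) : Multiset ℕ) =
        {l1} + {l0} + {e} + ({r2} + {r3} + {r4} + {y1} + {y2}) := rfl
    rw [e3] at h1
    exact h1

/-- The parent of the largest size if the multiplicities but the first are equal. -/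
theorem par_sp {m t b w y : ℕ} (hm : 0 < m) (hw : b ≤ w) (hyb : y ≤ b)
    (hy : y + t + W611.ff m + 2 ≤ w) (hb : y + t + 2 * W611.ff m + 2 * m + 1 ≤ 2 * b)
    (hb2 : W611.ff m + t ≤ b) (hb3 : W611.ff m + t + 2 * m + 5 ≤ b) :
    Al m t (w + 2 * b) ({2 * b + 1} + ({w} + {b} + {b} + {b} + {y})) := by
  have hF := ff_ge m
  rcases Nat.lt_or_ge b w with h | h
  · have e1 : ({2 * b + 1} + ({w} + {b} + {b} + {b} + {y}) : Multiset ℕ) =
        {w} + {2 * b + 1} + ({b} + {b} + {b} + {y}) := by abel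
    rw [e1]
    refine al_line (by omega) (by omega) (by omega) (by omega) ?_
    have h1 := par6 (m := m) (t := t) (d := w + 2 * b - 1) (r0 := w - 1) (r1 := b) (r2 := b)
      (r3 := b) (y := y) (c := 2 * b) hm (by omega) le_rfl le_rfl hyb (by omega) (by omega) hb2
      (by omega) (by omega)
    have e2 : ({w - 1} + {2 * b + 1 - 1} + ({b} + {b} + {b} + {y}) : Multiset ℕ) =
        {2 * b} + ({w - 1} + {b} + {b} + {b} + {y}) := by
      rw [Nat.add_sub_cancel]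
      abel
    rw [e2]
    exact h1
  · have hwb : w = b := by omega
    subst hwb
    obtain ⟨b, rfl⟩ : ∃ a, w = a + 2 := ⟨w - 2, by omega⟩
    have e1 : ({2 * (b + 2) + 1} + ({b + 2} + {b + 2} + {b + 2} + {b + 2} + {y}) : Multiset ℕ) =
        {b + 2} + {2 * b + 5} + ({b + 2} + {b + 2} + {b + 2} + {y}) := by
      rw [show 2 * (b + 2) + 1 = 2 * b + 5 by ring]
      abel
    rw [e1, show b + 2 + 2 * (b + 2) = 3 * b + 6 by ring]
    refine al_line (by omega) (by omega) (by omega) (by omega) ?_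
    rw [show 3 * b + 6 - 1 = 3 * b + 5 by omega, show b + 2 - 1 = b + 1 by omega,
      show 2 * b + 5 - 1 = 2 * b + 4 by omega]
    have e2 : ({b + 1} + {2 * b + 4} + ({b + 2} + {b + 2} + {b + 2} + {y}) : Multiset ℕ) =
        {b + 2} + {2 * b + 4} + ({b + 2} + {b + 2} + {b + 1} + {y}) := by abel
    rw [e2]
    refine al_line (by omega) (by omega) (by omega) (by omega) ?_
    rw [show 3 * b + 5 - 1 = 3 * b + 4 by omega, show b + 2 - 1 = b + 1 by omega,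
      show 2 * b + 4 - 1 = 2 * b + 3 by omega]
    have e3 : ({b + 1} + {2 * b + 3} + ({b + 2} + {b + 2} + {b + 1} + {y}) : Multiset ℕ) =
        {b + 2} + {2 * b + 3} + ({b + 2} + {b + 1} + {b + 1} + {y}) := by abel
    rw [e3]
    refine al_line (by omega) (by omega) (by omega) (by omega) ?_
    rw [show 3 * b + 4 - 1 = 3 * b + 3 by omega, show b + 2 - 1 = b + 1 by omega,
      show 2 * b + 3 - 1 = 2 * b + 2 by omega]
    have e4 : ({b + 1} + {2 * b + 2} + ({b + 2} + {b + 1} + {b + 1} + {y}) : Multiset ℕ) =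
        {b + 2} + {2 * b + 2} + ({b + 1} + {b + 1} + {b + 1} + {y}) := by abel
    rw [e4]
    refine al_line (by omega) (by omega) (by omega) (by omega) ?_
    rw [show 3 * b + 3 - 1 = 3 * b + 2 by omega, show b + 2 - 1 = b + 1 by omega,
      show 2 * b + 2 - 1 = 2 * b + 1 by omega]
    have e5 : ({b + 1} + {2 * b + 1} + ({b + 1} + {b + 1} + {b + 1} + {y}) : Multiset ℕ) =
        {2 * b + 1} + {b + 1} + {b + 1} + ({b + 1} + {b + 1} + {y}) := by abel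
    rw [e5]
    refine al_cr (by omega) (by omega) (by omega) ?_
    rw [show 2 * (3 * b + 2) - (2 * b + 1 + (b + 1) + (b + 1)) = 2 * b + 1 by omega,
      show 3 * b + 2 - (b + 1 + (b + 1)) = b by omega,
      show 3 * b + 2 - (2 * b + 1 + (b + 1)) = 0 by omega]
    have e6 : ({b} + {0} + {0} + ({b + 1} + {b + 1} + {y}) : Multiset ℕ) =
        {b + 1} + {b + 1} + ({b} + {0} + {0} + {y}) := by abel
    rw [e6]
    refine al_line (by omega) (by omega) (by omega) (by omega) ?_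
    rw [Nat.add_sub_cancel, Nat.add_sub_cancel]
    have e7 : ({b} + {b} + ({b} + {0} + {0} + {y}) : Multiset ℕ) =
        {b} + {b} + {b} + ({0} + {0} + {y}) := by abel
    rw [e7]
    refine al_cr (by omega) (by omega) (by omega) ?_
    rw [show 2 * (2 * b) - (b + b + b) = b by omega, show 2 * b - (b + b) = 0 by omega]
    have h1 := al_p1 (t := t) (d := b) hm [0, 0, 0, 0, 0, y] (by omega) (by
      simp only [List.mem_cons, List.not_mem_nil, or_false, forall_eq_or_imp, forall_eq]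
      refine ⟨?_, ?_, ?_, ?_, ?_, ?_⟩ <;> omega) (by
      simp only [List.pairwise_cons, List.mem_cons, List.not_mem_nil, or_false,
        forall_eq_or_imp, forall_eq, false_imp_iff, implies_true, List.Pairwise.nil, and_true]
      refine ⟨⟨?_, ?_, ?_, ?_, ?_⟩, ⟨?_, ?_, ?_, ?_⟩, ⟨?_, ?_, ?_⟩, ⟨?_, ?_⟩, ?_⟩ <;> omega) (by
      simp only [List.sum_cons, List.sum_nil]
      omega)
    have e8 : (([0, 0, 0, 0, 0, y] : List ℕ) : Multiset ℕ) =
        {0} + {0} + {0} + ({0} + {0} + {y}) := rfl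
    rw [e8] at h1
    exact h1

end Pool.Agent.J4.H6.NM
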