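import Pool.Agent.J4.H6.NM.Par

set_option autoImplicit false

/-!
# Inequalities, and the reduction of classes with eight multiplicities to standard classes
-/

namespace Pool.Agent.J4.H6.NM

open Pool.Agent.TH641.UM Pool.Agent.TH2.NU Pool.Agent.W609.CR Pool.Agent.TH167.SH

/-- the inequality for two of the eight multiplicities -/
theorem pair_of {d : ℕ} {v : Fin 8 → ℕ} {κ s : ℤ} (hk : kk d v = κ) (hs : ip d v d v = s)
    (h0 : 0 ≤ κ) (h1 : κ ^ 2 ≤ 2 * s) {a b : Fin 8} (hab : a ≠ b) : v a + v b ≤ d := by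
  by_contra hcon
  push Not at hcon
  obtain ⟨T, hT⟩ : ∃ T : Finset (Fin 8), T = (Finset.univ.erase a).erase b := ⟨_, rfl⟩
  have hb : b ∈ Finset.univ.erase a := Finset.mem_erase.2 ⟨hab.symm, Finset.mem_univ b⟩
  have hc : T.card = 6 := by
    rw [hT, Finset.card_erase_of_mem hb, Finset.card_erase_of_mem (Finset.mem_univ a)]
    simp
  have e : ∀ f : Fin 8 → ℤ, ∑ j, f j = f a + (f b + ∑ j ∈ T, f j) := by
    intro f
    rw [← Finset.add_sum_erase _ _ (Finset.mem_univ a), ← Finset.add_sum_erase _ _ hb, hT]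
  have h2 := sq_sum_le_card_mul_sum_sq (s := T) (f := fun j => (v j : ℤ))
  rw [hc] at h2
  unfold kk at hk
  unfold ip at hs
  rw [e] at hk hs
  have e3 : ∑ j ∈ T, (v j : ℤ) * v j = ∑ j ∈ T, (v j : ℤ) ^ 2 := Finset.sum_congr rfl fun j _ => by ring
  rw [e3] at hs
  obtain ⟨A, hA⟩ : ∃ A : ℤ, A = ∑ j ∈ T, (v j : ℤ) := ⟨_, rfl⟩
  obtain ⟨B, hB⟩ : ∃ B : ℤ, B = ∑ j ∈ T, (v j : ℤ) ^ 2 := ⟨_, rfl⟩
  rw [← hA] at hk h2
  rw [← hB] at hs h2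
  obtain ⟨x, hx⟩ : ∃ x : ℤ, x = (d : ℤ) - v a - v b := ⟨_, rfl⟩
  have hx1 : x ≤ -1 := by
    have : (d : ℤ) < (v a : ℤ) + v b := by exact_mod_cast hcon
    omega
  push_cast at h2
  have hA2 : A = 3 * d - κ - v a - v b := by linarith
  have hB2 : B = d * d - s - v a * v a - v b * v b := by linarith
  have hva : (v a : ℤ) = d - x - v b := by linarith
  rw [hA2, hB2] at h2
  have h3 := sq_nonneg ((v a : ℤ) - v b)
  have h4 := sq_nonneg ((d : ℤ) - x - 2 * κ)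
  have h5 := mul_nonneg h0 (show (0 : ℤ) ≤ -x by omega)
  have h6 : 1 ≤ x * x := by nlinarith
  rw [hva] at h2 h3
  nlinarith

/-- the inequality for one of the eight multiplicities -/
theorem one_of {d : ℕ} {v : Fin 8 → ℕ} {κ s : ℤ} (hk : kk d v = κ) (hs : ip d v d v = s)
    (a : Fin 8) : (κ - v a) ^ 2 ≤ 2 * κ ^ 2 - 2 * s := by
  obtain ⟨T, hT⟩ : ∃ T : Finset (Fin 8), T = Finset.univ.erase a := ⟨_, rfl⟩
  have hc : T.card = 7 := by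
    rw [hT, Finset.card_erase_of_mem (Finset.mem_univ a)]
    simp
  have e : ∀ f : Fin 8 → ℤ, ∑ j, f j = f a + ∑ j ∈ T, f j := by
    intro f
    rw [← Finset.add_sum_erase _ _ (Finset.mem_univ a), hT]
  have h2 := sq_sum_le_card_mul_sum_sq (s := T) (f := fun j => (v j : ℤ))
  rw [hc] at h2
  unfold kk at hk
  unfold ip at hs
  rw [e] at hk hs
  have e3 : ∑ j ∈ T, (v j : ℤ) * v j = ∑ j ∈ T, (v j : ℤ) ^ 2 := Finset.sum_congr rfl fun j _ => by ring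
  rw [e3] at hs
  push_cast at h2
  have hA2 : ∑ j ∈ T, (v j : ℤ) = 3 * d - κ - v a := by linarith
  have hB2 : ∑ j ∈ T, (v j : ℤ) ^ 2 = d * d - s - v a * v a := by linarith
  rw [hA2, hB2] at h2
  have h4 := sq_nonneg (2 * (d : ℤ) - 3 * (κ + v a))
  nlinarith

/-- the classes near the anticanonical ray -/
theorem near_le {d G x0 x1 x2 x3 x4 x5 x6 x7 : ℤ} (h01 : x1 ≤ x0) (h12 : x2 ≤ x1) (h23 : x3 ≤ x2)
    (h34 : x4 ≤ x3) (h45 : x5 ≤ x4) (h56 : x6 ≤ x5) (h67 : x7 ≤ x6) (hs : x0 + x1 + x2 ≤ d)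
    (hn : d ≤ x4 + x5 + x7 + G) :
    0 ≤ 3 * d - (x0 + x1 + x2 + x3 + x4 + x5 + x6 + x7) - x7 ∧
    3 * d - (x0 + x1 + x2 + x3 + x4 + x5 + x6 + x7) - x7 ≤ 3 * G ∧
    (3 * d - (x0 + x1 + x2 + x3 + x4 + x5 + x6 + x7)) ^ 2 -
      (d ^ 2 - (x0 ^ 2 + x1 ^ 2 + x2 ^ 2 + x3 ^ 2 + x4 ^ 2 + x5 ^ 2 + x6 ^ 2 + x7 ^ 2)) ≤ 9 * G ^ 2 := by
  obtain ⟨a6, rfl⟩ : ∃ a6, x6 = x7 + a6 := ⟨x6 - x7, by ring⟩
  obtain ⟨a5, rfl⟩ : ∃ a5, x5 = x7 + a5 := ⟨x5 - x7, by ring⟩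
  obtain ⟨a4, rfl⟩ : ∃ a4, x4 = x7 + a4 := ⟨x4 - x7, by ring⟩
  obtain ⟨a3, rfl⟩ : ∃ a3, x3 = x7 + a3 := ⟨x3 - x7, by ring⟩
  obtain ⟨a2, rfl⟩ : ∃ a2, x2 = x7 + a2 := ⟨x2 - x7, by ring⟩
  obtain ⟨a1, rfl⟩ : ∃ a1, x1 = x7 + a1 := ⟨x1 - x7, by ring⟩
  obtain ⟨a0, rfl⟩ : ∃ a0, x0 = x7 + a0 := ⟨x0 - x7, by ring⟩
  obtain ⟨u, rfl⟩ : ∃ u, d = 3 * x7 + u := ⟨d - 3 * x7, by ring⟩
  have b6 : 0 ≤ a6 := by linarith
  have b5 : a6 ≤ a5 := by linarith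
  have b4 : a5 ≤ a4 := by linarith
  have b3 : a4 ≤ a3 := by linarith
  have b2 : a3 ≤ a2 := by linarith
  have b1 : a2 ≤ a1 := by linarith
  have b0 : a1 ≤ a0 := by linarith
  have hu : a0 + a1 + a2 ≤ u := by linarith
  have hn' : u ≤ a4 + a5 + G := by linarith
  obtain ⟨ε, hε⟩ : ∃ ε, ε = 3 * u - (a0 + a1 + a2 + a3 + a4 + a5 + a6) := ⟨_, rfl⟩
  have e0 : 0 ≤ ε := by linarith
  have e1 : ε ≤ 3 * G := by linarith
  have k1 : a3 * a3 ≤ a0 * a1 := mul_le_mul (by linarith) (by linarith) (by linarith) (by linarith)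
  have k2 : a4 * a4 ≤ a0 * a2 := mul_le_mul (by linarith) (by linarith) (by linarith) (by linarith)
  have k3 : a5 * a5 ≤ a1 * a2 := mul_le_mul (by linarith) (by linarith) (by linarith) (by linarith)
  have k4 : a6 * a6 ≤ a0 * a1 := mul_le_mul (by linarith) (by linarith) (by linarith) (by linarith)
  have k5 : 0 ≤ a0 * a2 := mul_nonneg (by linarith) (by linarith)
  have k6 : 0 ≤ a1 * a2 := mul_nonneg (by linarith) (by linarith)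
  have k7 : (a0 + a1 + a2) * (a0 + a1 + a2) ≤ u * u := mul_le_mul hu hu (by linarith) (by linarith)
  have k8 : ε * ε ≤ (3 * G) * (3 * G) := mul_le_mul e1 e1 e0 (by linarith)
  refine ⟨by linarith, by linarith, ?_⟩
  have k9 : (3 * (3 * x7 + u) - (x7 + a0 + (x7 + a1) + (x7 + a2) + (x7 + a3) + (x7 + a4) + (x7 + a5) +
      (x7 + a6) + x7)) ^ 2 - ((3 * x7 + u) ^ 2 - ((x7 + a0) ^ 2 + (x7 + a1) ^ 2 + (x7 + a2) ^ 2 +
      (x7 + a3) ^ 2 + (x7 + a4) ^ 2 + (x7 + a5) ^ 2 + (x7 + a6) ^ 2 + x7 ^ 2)) =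
      ε * ε + (a0 * a0 + a1 * a1 + a2 * a2 + a3 * a3 + a4 * a4 + a5 * a5 + a6 * a6) - u * u := by
    rw [hε]
    ring
  rw [k9]
  nlinarith

theorem room1 {d w0 w1 w2 w3 w4 y1 y2 s t c : ℕ} (h01 : w1 ≤ w0) (h12 : w2 ≤ w1)
    (h23 : w3 ≤ w2) (h34 : w4 ≤ w3) (hy1 : y1 ≤ s) (hy2 : y2 ≤ s) (ht : t ≤ s)
    (hs : w0 + w1 + w2 ≤ d) (hc : w0 + s + c = d) (h7 : 7 * s ≤ w2) :
    w0 * (w0 + 1) + w1 * (w1 + 1) + w2 * (w2 + 1) + w3 * (w3 + 1) + w4 * (w4 + 1) +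
      y1 * (y1 + 1) + y2 * (y2 + 1) + t * (t + 1) + c * (c + 1) ≤ (d + 1) * (d + 2) := by
  obtain ⟨τ, rfl⟩ : ∃ τ, d = w0 + w1 + w2 + τ := ⟨_, (Nat.add_sub_of_le hs).symm⟩
  have hc' : c + s = w1 + w2 + τ := by omega
  obtain ⟨r, rfl⟩ : ∃ r, w2 = 7 * s + r := ⟨_, (Nat.add_sub_of_le h7).symm⟩
  have hc2 : c = w1 + 6 * s + r + τ := by omega
  have k1 : w1 * w1 ≤ w0 * w1 := Nat.mul_le_mul_right _ h01
  have k2 : (7 * s + r) * (7 * s + r) ≤ w0 * (7 * s + r) := Nat.mul_le_mul_right _ (by omega)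
  have k3 : w3 * w3 ≤ w0 * w1 := Nat.mul_le_mul (by omega) (by omega)
  have k4 : w4 * w4 ≤ w0 * (7 * s + r) := Nat.mul_le_mul (by omega) (by omega)
  have k5 : y1 * y1 ≤ s * s := Nat.mul_le_mul hy1 hy1
  have k6 : y2 * y2 ≤ s * s := Nat.mul_le_mul hy2 hy2
  have k7 : t * t ≤ s * s := Nat.mul_le_mul ht ht
  have k8 : s * (7 * s) ≤ s * w1 := Nat.mul_le_mul_left _ (by omega)
  subst hc2
  nlinarith [Nat.zero_le (w0 * τ), Nat.zero_le (w1 * τ), Nat.zero_le (s * τ), Nat.zero_le (r * τ), Nat.zero_le (τ * τ), Nat.zero_le (s * r), Nat.zero_le (s * s)]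

theorem room3 {d w0 w1 w2 w3 w4 w5 y t : ℕ} (h01 : w1 ≤ w0) (h12 : w2 ≤ w1)
    (h23 : w3 ≤ w2) (h34 : w4 ≤ w3) (h45 : w5 ≤ w4) (h5y : y ≤ w5) (ht : t ≤ w4)
    (hs : w0 + w1 + w2 ≤ d) (hn : w4 + w5 + y + t + 3 ≤ d) :
    w0 * (w0 + 1) + w1 * (w1 + 1) + w2 * (w2 + 1) + w3 * (w3 + 1) +
      y * (y + 1) + t * (t + 1) + (w4 + w5 + 1) * (w4 + w5 + 2) ≤ (d + 1) * (d + 2) := by
  obtain ⟨τ, rfl⟩ : ∃ τ, d = w0 + w1 + w2 + τ := ⟨_, (Nat.add_sub_of_le hs).symm⟩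
  obtain ⟨a5, rfl⟩ : ∃ a, w4 = w5 + a := ⟨_, (Nat.add_sub_of_le h45).symm⟩
  obtain ⟨a4, rfl⟩ : ∃ a, w3 = w5 + a5 + a := ⟨_, (Nat.add_sub_of_le h34).symm⟩
  obtain ⟨a3, rfl⟩ : ∃ a, w2 = w5 + a5 + a4 + a := ⟨_, (Nat.add_sub_of_le h23).symm⟩
  obtain ⟨a2, rfl⟩ : ∃ a, w1 = w5 + a5 + a4 + a3 + a := ⟨_, (Nat.add_sub_of_le h12).symm⟩
  obtain ⟨a1, rfl⟩ : ∃ a, w0 = w5 + a5 + a4 + a3 + a2 + a := ⟨_, (Nat.add_sub_of_le h01).symm⟩
  obtain ⟨b, rfl⟩ : ∃ b, w5 = y + b := ⟨_, (Nat.add_sub_of_le h5y).symm⟩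
  -- hn : the excess
  obtain ⟨e, he⟩ : ∃ e, b + 3 * a4 + 3 * a3 + 2 * a2 + a1 + τ + 2 * a5 = t + 3 + e := by
    refine ⟨b + 3 * a4 + 3 * a3 + 2 * a2 + a1 + τ + 2 * a5 - (t + 3), ?_⟩
    omega
  have k1 : t * t ≤ (y + b + a5) * t := Nat.mul_le_mul_right _ ht
  have k2 : (y + b + a5) * (t + 3) ≤ (y + b + a5) * (b + 3 * a4 + 3 * a3 + 2 * a2 + a1 + τ + 2 * a5) :=
    Nat.mul_le_mul_left _ (by omega)
  nlinarith [Nat.zero_le (y * b), Nat.zero_le (a5 * a4)]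

theorem room7 {d w0 w1 w2 w3 w4 w5 w6 y t G : ℕ} (h01 : w1 ≤ w0) (h12 : w2 ≤ w1)
    (h23 : w3 ≤ w2) (h34 : w4 ≤ w3) (h45 : w5 ≤ w4) (h56 : w6 ≤ w5) (h6y : y ≤ w6) (ht : t ≤ G)
    (hG : 1 ≤ G) (hs : w0 + w1 + w2 ≤ d) (hw : 50 * G ≤ w2) :
    w0 * (w0 + 1) + w1 * (w1 + 1) + w2 * (w2 + 1) + w3 * (w3 + 1) + w4 * (w4 + 1) +
      w5 * (w5 + 1) + w6 * (w6 + 1) + t * (t + 1) + (y + 5 * G + 1) * (y + 5 * G + 2) ≤
      (d + 1) * (d + 2) := by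
  have k0 : (w0 + w1 + w2) * (w0 + w1 + w2) ≤ d * d := Nat.mul_le_mul hs hs
  have k1 : w2 * w2 ≤ w0 * w1 := Nat.mul_le_mul (by omega) (by omega)
  have k2 : w2 * w2 ≤ w0 * w2 := Nat.mul_le_mul (by omega) (by omega)
  have k3 : w2 * w2 ≤ w1 * w2 := Nat.mul_le_mul (by omega) (by omega)
  have k4 : w3 * w3 ≤ w2 * w2 := Nat.mul_le_mul (by omega) (by omega)
  have k5 : w4 * w4 ≤ w2 * w2 := Nat.mul_le_mul (by omega) (by omega)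
  have k6 : w5 * w5 ≤ w2 * w2 := Nat.mul_le_mul (by omega) (by omega)
  have k7 : w6 * w6 ≤ w2 * w2 := Nat.mul_le_mul (by omega) (by omega)
  have k8 : (y + 5 * G + 1) * (y + 5 * G + 1) ≤ (w2 + 6 * G) * (w2 + 6 * G) :=
    Nat.mul_le_mul (by omega) (by omega)
  have k9 : t * t ≤ G * G := Nat.mul_le_mul ht ht
  have k10 : (50 * G) * w2 ≤ w2 * w2 := Nat.mul_le_mul_right _ hw
  have k11 : (50 * G) * G ≤ w2 * G := Nat.mul_le_mul_right _ hw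
  nlinarith

/-- **Reduction to standard classes.** -/
theorem reduce {m t : ℕ} {κ s : ℤ} (h0 : 0 ≤ κ) (h1 : κ ^ 2 ≤ 2 * s)
    (H : ∀ (d : ℕ) (v : Fin 8 → ℕ), Antitone v → v 0 + v 1 + v 2 ≤ d → kk d v = κ →
      ip d v d v = s → Al m t d (ms v)) :
    ∀ (d : ℕ) (v : Fin 8 → ℕ), kk d v = κ → ip d v d v = s → Al m t d (ms v) := by
  intro d
  induction d using Nat.strong_induction_on with
  | _ d ih =>
    intro v hk hs
    by_cases hc : ∃ i : Fin 3 → Fin 8, Function.Injective i ∧ d < v (i 0) + v (i 1) + v (i 2)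
    · obtain ⟨i, hi, hlt⟩ := hc
      have p : PS i d v := ⟨pair_of hk hs h0 h1 (ne10 hi).symm, pair_of hk hs h0 h1 (ne20 hi).symm,
        pair_of hk hs h0 h1 (ne21 hi).symm⟩
      refine al_quad hi p (ih _ ?_ _ ?_ ?_)
      · have q1 := p.p01
        have q2 := p.p02
        have q3 := p.p12
        unfold cd
        omega
      · rw [kk_cr hi p, hk]
      · rw [ip_cr hi p p, hs]
    · push Not at hc
      obtain ⟨σ, hσ⟩ : ∃ σ : Equiv.Perm (Fin 8), Antitone (v ∘ σ) := by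
        refine ⟨Fin.revPerm.trans (Tuple.sort v), ?_⟩
        have h2 := Tuple.monotone_sort v
        intro a b hab
        exact h2 (Fin.rev_le_rev.2 hab)
      have e1 : ms (v ∘ σ) = ms v := by
        unfold ms
        exact Equiv.sum_comp σ (fun i => ({v i} : Multiset ℕ))
      rw [← e1]
      refine H d (v ∘ σ) hσ ?_ ?_ ?_
      · refine hc (fun x => σ (![0, 1, 2] x)) (σ.injective.comp ?_)
        decide
      · rw [← hk]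
        unfold kk
        congr 1
        exact Equiv.sum_comp σ (fun i => (v i : ℤ))
      · rw [← hs]
        unfold ip
        congr 1
        exact Equiv.sum_comp σ (fun i => (v i : ℤ) * (v i : ℤ))

end Pool.Agent.J4.H6.NM
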