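import Pool.Agent.J4.H25.Gl.Glue
import Pool.Agent.J4.H25.Gl.Conv
import Pool.Agent.TH167.SH.Main
import Pool.Agent.TH167.SH.Conv

set_option autoImplicit false

/-!
# Quadratic transformations and lines for the expected dimension in one degree

(The statements of `Pool/Agent/J4/H25/Gl/Steps.lean`, with fewer imports.)
-/

namespace Pool.Agent.J4.H6.NM

open Finset Pool.Agent.TH176.Nag Pool.Agent.TH603.Sur Pool.Agent.TH641.UM Pool.Agent.TH2.NU
  Pool.Agent.J4.H25.Gl Pool.Agent.W609 Pool.Agent.W609.CR Pool.Agent.TH167.SH Pool.Agent.H932R3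

/-- a point where a polynomial does not vanish, with nonzero coordinates -/
theorem exists_pt {ι : Type} [Fintype ι] {F : MvPolynomial (ι × Fin 2) ℂ} (hF : F ≠ 0) :
    ∃ P : ι → Fin 2 → ℂ, (∀ i j, P i j ≠ 0) ∧
      MvPolynomial.eval (fun q : ι × Fin 2 => P q.1 q.2) F ≠ 0 := by
  classical
  have h1 : F * ∏ q : ι × Fin 2, MvPolynomial.X q ≠ 0 :=
    mul_ne_zero hF (Finset.prod_ne_zero_iff.2 fun q _ => MvPolynomial.X_ne_zero q)
  obtain ⟨x, hx⟩ : ∃ x : ι × Fin 2 → ℂ,
      MvPolynomial.eval x (F * ∏ q : ι × Fin 2, MvPolynomial.X q) ≠ 0 := by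
    by_contra hcon
    push Not at hcon
    exact h1 (MvPolynomial.funext fun x => by rw [hcon x, map_zero])
  rw [map_mul, map_prod] at hx
  refine ⟨fun i j => x (i, j), fun i j => ?_, left_ne_zero_of_mul hx⟩
  have h2 := Finset.prod_ne_zero_iff.1 (right_ne_zero_of_mul hx) (i, j) (mem_univ _)
  rwa [MvPolynomial.eval_X] at h2

/-- from general points over a field -/
theorem sgn_of_exp {n : ℕ} {w : Fin n → ℕ} {d : ℕ}
    (h : ∃ F : MvPolynomial (Fin n × Fin 2) ℚ, F ≠ 0 ∧ ∀ P : Fin n → Fin 2 → ℂ,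
      MvPolynomial.aeval (fun ij : Fin n × Fin 2 => P ij.1 ij.2) F ≠ 0 → ExpDim ℂ w P d) :
    Sgn (ms w) d := by
  obtain ⟨F, hF, hF'⟩ := h
  obtain ⟨P, hP, hPF⟩ := exists_pt (map_ne_zero_of hF)
  rw [MvPolynomial.eval_map] at hPF
  have h1 := hF' P hPF
  refine Sgn_of_or ?_
  rcases emp_or_sur hP (le_of_eq h1) with h | h
  · exact Or.inl ((EmpM_ms _ _).2 h)
  · exact Or.inr ((SurM_ms _ _).2 h)

/-- from generic points to `Sgn` -/
theorem sgn_of_generic {K : Type} [Field K] [CharZero K] {n : ℕ} {w : Fin n → ℕ}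
    {P : Fin n → Fin 2 → K} (hP : AlgebraicIndependent ℚ (fun ij : Fin n × Fin 2 => P ij.1 ij.2))
    {d : ℕ} (h : ExpDim K w P d) : Sgn (ms w) d := by
  refine Sgn_of_or ?_
  rcases emp_or_sur (fun i j => hP.ne_zero (i, j)) (le_of_eq h) with h | h
  · exact Or.inl ((EmpM_ms _ _).2 h)
  · exact Or.inr ((SurM_ms _ _).2 h)

/-- from `Sgn` to general points -/
theorem open_of_sgn {n : ℕ} {w : Fin n → ℕ} {d : ℕ} (h : Sgn (ms w) d) :
    ∃ F : MvPolynomial (Fin n × Fin 2) ℚ, F ≠ 0 ∧ ∀ {L : Type} [Field L] [CharZero L]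
      (P : Fin n → Fin 2 → L), MvPolynomial.aeval (fun ij : Fin n × Fin 2 => P ij.1 ij.2) F ≠ 0 →
      ExpDim L w P d := by
  rcases Sgn_or h with h2 | h2
  · obtain ⟨F, hF, hF'⟩ := full_open ((EmpM_ms _ _).1 h2)
    exact ⟨F, hF, fun P hP => hF' P hP d le_rfl⟩
  · obtain ⟨F, hF, hF'⟩ := indep_open ((SurM_ms _ _).1 h2)
    exact ⟨F, hF, fun P hP => hF' P hP d le_rfl⟩

/-- from `Sgn` to generic points -/
theorem exp_of_sgn {n : ℕ} {w : Fin n → ℕ} {d : ℕ} (h : Sgn (ms w) d)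
    {K : Type} [Field K] [CharZero K] {P : Fin n → Fin 2 → K}
    (hP : AlgebraicIndependent ℚ (fun ij : Fin n × Fin 2 => P ij.1 ij.2)) : ExpDim K w P d := by
  obtain ⟨F, hF, hF'⟩ := open_of_sgn h
  exact hF' P (fun h0 => hF (hP.eq_zero_of_aeval_eq_zero F h0))

theorem expDim_iff {K : Type} [Field K] {s : ℕ} (P : Fin s → Fin 2 → K) (d : ℕ) (w : Fin s → ℕ) :
    ExpDim K w P d ↔
      (Module.finrank K ↥(VS (fun j => aff (P j)) w d) : ℤ) = max 0 (Pool.Agent.TH167.SH.chi d w) := by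
  have h1 : ExpDim K w P d ↔ Module.finrank K ↥(VS (fun j => aff (P j)) w d) =
      Nat.choose (d + 2) 2 - ∑ i, Nat.choose (w i + 1) 2 := by
    rw [← sys_eq]
    exact Iff.rfl
  have h2 : Pool.Agent.TH167.SH.chi d w =
      ((d + 2).choose 2 : ℤ) - ((∑ i, (w i + 1).choose 2 : ℕ) : ℤ) := by
    unfold Pool.Agent.TH167.SH.chi
    push_cast
    rfl
  rw [h1, h2]
  omega

/-- a quadratic transformation -/
theorem sgn_quad {n : ℕ} {d : ℕ} {w : Fin n → ℕ} {i : Fin 3 → Fin n}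
    (hi : Function.Injective i) (p : PS i d w) (h : Sgn (ms (wcr d i w)) (cd i d w)) :
    Sgn (ms w) d := by
  obtain ⟨K, _, _, P, hP⟩ := Pool.Agent.TH167.SH.exists_generic n
  obtain ⟨P', hP', hr⟩ := exists_crel hP hi
  have h1 := exp_of_sgn h hP'
  refine sgn_of_generic hP ?_
  rw [expDim_iff] at h1 ⊢
  rw [hr.dim p] at h1
  rw [h1]
  have h2 := ip_cr hi p p
  have h3 := kk_cr hi p
  have h4 := two_chi (cd i d w) (wcr d i w)
  rw [h2, h3, ← two_chi] at h4
  rw [mul_left_cancel₀ two_ne_zero h4]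

/-- the line through two points, met in degree `-1` -/
theorem sgn_line {n : ℕ} {d : ℕ} {w : Fin n → ℕ} {i j : Fin n} (hij : i ≠ j) (hd : 1 ≤ d)
    (hi : 1 ≤ w i) (hj : 1 ≤ w j) (hc : w i + w j = d + 1)
    (h : Sgn (ms (sb i j 1 w)) (d - 1)) : Sgn (ms w) d := by
  obtain ⟨K, _, _, P, hP⟩ := Pool.Agent.TH167.SH.exists_generic n
  have h1 := exp_of_sgn h hP
  refine sgn_of_generic hP ?_
  rw [expDim_iff] at h1 ⊢
  rw [line_k hP hij 1 w d hd hi hj (by omega), h1]
  have key : Pool.Agent.TH167.SH.chi d w + ((w i : ℤ) + w j - d - 1) =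
      Pool.Agent.TH167.SH.chi (d - 1) (sb i j 1 w) := by
    have e0 : (d + 2).choose 2 = (d - 1 + 2).choose 2 + (d + 1) := by
      obtain ⟨e, rfl⟩ : ∃ e, d = e + 1 := ⟨d - 1, by omega⟩
      have h5 := Nat.choose_succ_succ' (e + 2) 1
      rw [Nat.choose_one_right] at h5
      have e1 : (e + 2 + 1).choose (1 + 1) = (e + 1 + 2).choose 2 := rfl
      have e2 : (e + 2).choose (1 + 1) = (e + 1 - 1 + 2).choose 2 := by
        rw [Nat.add_sub_cancel]
      omega
    have e1 : ∑ l, (w l + 1).choose 2 = ∑ l, (sb i j 1 w l + 1).choose 2 + (w i + w j) := by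
      have e3 : ∀ l, (w l + 1).choose 2 = (sb i j 1 w l + 1).choose 2 +
          (if l = i ∨ l = j then w l else 0) := by
        intro l
        unfold sb
        by_cases hl : l = i ∨ l = j
        · rw [if_pos hl, if_pos hl]
          have hl1 : 1 ≤ w l := by
            rcases hl with rfl | rfl
            · exact hi
            · exact hj
          obtain ⟨x, hx⟩ : ∃ x, w l = x + 1 := ⟨w l - 1, by omega⟩
          rw [hx, Nat.add_sub_cancel]
          have h5 := Nat.choose_succ_succ' (x + 1) 1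
          rw [Nat.choose_one_right] at h5
          have e4 : (x + 1 + 1).choose (1 + 1) = (x + 1 + 1).choose 2 := rfl
          have e5 : (x + 1).choose (1 + 1) = (x + 1).choose 2 := rfl
          omega
        · rw [if_neg hl, if_neg hl, add_zero]
      rw [Finset.sum_congr rfl fun l _ => e3 l, Finset.sum_add_distrib]
      congr 1
      rw [← Finset.sum_filter]
      have e6 : (univ.filter fun l => l = i ∨ l = j) = {i, j} := by
        ext l
        simp
      rw [e6, Finset.sum_pair hij]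
    have e7 : ∑ l, ((w l + 1).choose 2 : ℤ) = ((∑ l, (w l + 1).choose 2 : ℕ) : ℤ) := by
      push_cast
      rfl
    have e8 : ∑ l, ((sb i j 1 w l + 1).choose 2 : ℤ) =
        ((∑ l, (sb i j 1 w l + 1).choose 2 : ℕ) : ℤ) := by
      push_cast
      rfl
    unfold Pool.Agent.TH167.SH.chi
    rw [e7, e8, e0, e1]
    push_cast
    ring
  have : Pool.Agent.TH167.SH.chi d w = Pool.Agent.TH167.SH.chi (d - 1) (sb i j 1 w) := by
    have h5 : ((w i : ℤ) + w j - d - 1) = 0 := by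
      have : ((w i + w j : ℕ) : ℤ) = ((d + 1 : ℕ) : ℤ) := by rw [hc]
      push_cast at this
      linarith
    rw [h5] at key
    linarith
  rw [this]

end Pool.Agent.J4.H6.NM
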